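import Pool.Agent.L0h33.TL.Amp

/-!
# Generic tally oracles
-/

set_option autoImplicit false

namespace Pool.Agent.L0h33.TL

open Function Pool.Agent.NPC Pool.Agent.L0h33.LD Pool.Agent.H660R2.NX
open Pool.Agent.H620R2.Gauge (Oracle IsFP IsP Alg)
open Pool.Agent.H639R2.NTP.C5 (allL mem_allL)
open Filter

attribute [local irreducible] unpair

unseal unpair in
theorem unpair_fst_len (y : List Bool) : (unpair y).1.length ≤ y.length := by
  unfold unpair
  have h1 : ∀ s : List Bool × List Bool × Bool,
      (NPC.ustep s).1.length + (NPC.ustep s).2.1.length ≤ s.1.length + s.2.1.length := by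
    rintro ⟨a, l, b⟩
    unfold NPC.ustep
    cases b with
    | true => simp
    | false =>
      match l with
      | [] => simp
      | true :: [] => simp
      | true :: c :: l' => simp; omega
      | false :: l' => simp
  have h2 : ∀ k (s : List Bool × List Bool × Bool),
      (NPC.ustep^[k] s).1.length + (NPC.ustep^[k] s).2.1.length ≤ s.1.length + s.2.1.length := by
    intro k
    induction k with
    | zero => intro s; simp
    | succ k ih =>
      intro s
      rw [Function.iterate_succ_apply]
      exact (ih _).trans (h1 s)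
  have h3 := h2 y.length ([], y, false)
  simp only [List.length_reverse]
  simp only [List.length_nil] at h3
  omega

theorem isOpen_pre (Q : List Bool → Prop) (n : ℕ) : IsOpen {T : ℕ → Bool | Q (pre T n)} := by
  have h1 : Continuous (fun (T : ℕ → Bool) (i : Fin n) => T i) :=
    continuous_pi fun i => continuous_apply (i : ℕ)
  have h2 : {T : ℕ → Bool | Q (pre T n)} =
      (fun (T : ℕ → Bool) (i : Fin n) => T i) ⁻¹' {w | Q (List.ofFn w)} := by
    ext T
    rw [Set.mem_preimage, Set.mem_ofPred_eq, Set.mem_ofPred_eq]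
    have h3 : List.ofFn (fun i : Fin n => T i) = pre T n := by
      unfold pre
      refine List.ext_getElem (by simp) fun i h2 h3 => ?_
      simp
    rw [h3]
  rw [h2]
  exact (isOpen_discrete _).preimage h1

theorem isClosed_pre (Q : List Bool → Prop) (n : ℕ) : IsClosed {T : ℕ → Bool | Q (pre T n)} := by
  rw [← isOpen_compl_iff]
  have : {T : ℕ → Bool | Q (pre T n)}ᶜ = {T : ℕ → Bool | ¬ Q (pre T n)} := by
    ext T
    simp
  rw [this]
  exact isOpen_pre (fun l => ¬ Q l) n

theorem exists_prefix {U : Set (ℕ → Bool)} (hU : IsOpen U) {T : ℕ → Bool} (hT : T ∈ U) :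
    ∃ n, ∀ T' : ℕ → Bool, (∀ i < n, T' i = T i) → T' ∈ U := by
  obtain ⟨I, u, h1, h2⟩ := isOpen_pi_iff.1 hU T hT
  refine ⟨I.sup _root_.id + 1, fun T' hT' => h2 ?_⟩
  intro i hi
  have h3 : i < I.sup _root_.id + 1 := Nat.lt_succ_of_le (Finset.le_sup (f := _root_.id) hi)
  rw [hT' i h3]
  exact (h1 i hi).2

/-- The oracle `T` up to `n`, and nothing after that. -/
def trunc (T : ℕ → Bool) (n : ℕ) : ℕ → Bool := fun i => if i < n then T i else false

theorem poly_trunc (T : ℕ → Bool) (n : ℕ) {α : Type} [TEnc α] {k : α → ℕ} (hk : UPoly k) :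
    Poly (fun a => pre (trunc T n) (k a)) := by
  have h1 : Poly (fun p : α × ℕ => (pre T n).getD p.2 false) :=
    NPC.Poly.getD (NPC.Poly.const _) (NPC.Poly.snd NPC.Poly.id) (NPC.Poly.const _)
  refine (NPC.Poly.map (F := fun _ j => (pre T n).getD j false) hk.range h1).congr fun a => ?_
  unfold pre
  refine List.map_congr_left fun i _ => ?_
  unfold trunc
  split_ifs with h
  · exact pre_getD T h
  · exact List.getD_eq_default _ _ (by simpa using h)

/-- A closed set of oracles without interior. -/
theorem residual_of {C : Set (ℕ → Bool)} (hC : IsClosed C)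
    (h : ∀ (T : ℕ → Bool) (n : ℕ), ∃ T' : ℕ → Bool, (∀ i < n, T' i = T i) ∧ T' ∉ C) :
    ∀ᶠ T in residual (ℕ → Bool), T ∉ C := by
  have h1 : interior C = ∅ := by
    by_contra h2
    obtain ⟨T, hT⟩ := Set.nonempty_iff_ne_empty.2 h2
    obtain ⟨n, hn⟩ := exists_prefix isOpen_interior hT
    obtain ⟨T', h3, h4⟩ := h T n
    exact h4 (interior_subset (hn T' h3))
  exact residual_of_dense_open hC.isOpen_compl (interior_eq_empty_iff_dense_compl.1 h1)

theorem residual_interior {C : Set (ℕ → Bool)} (hC : IsClosed C) :
    ∀ᶠ T in residual (ℕ → Bool), T ∈ C → ∃ n, ∀ T' : ℕ → Bool, (∀ i < n, T' i = T i) → T' ∈ C := by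
  have h1 : (frontier C)ᶜ ∈ residual (ℕ → Bool) :=
    residual_of_dense_open isClosed_frontier.isOpen_compl
      (interior_eq_empty_iff_dense_compl.1 (interior_frontier hC))
  filter_upwards [h1] with T hT hTC
  have h2 : T ∈ interior C := by
    by_contra h3
    exact hT ⟨subset_closure hTC, h3⟩
  obtain ⟨n, hn⟩ := exists_prefix isOpen_interior h2
  exact ⟨n, fun T' h => interior_subset (hn T' h)⟩

theorem isClosed_PT (W : List Bool → List Bool) (q : Polynomial ℕ) (L : Set (List Bool)) :
    IsClosed {T : ℕ → Bool | PT T W q L} := by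
  have : {T : ℕ → Bool | PT T W q L} =
      ⋂ x : List Bool, {T | x ∈ L ↔ W (pairBits x (pre T (q.eval x.length))) = [true]} := by
    ext T
    simp only [Set.mem_iInter]
    rfl
  rw [this]
  exact isClosed_iInter fun x => isClosed_pre (fun l => x ∈ L ↔ W (pairBits x l) = [true]) _

theorem isClosed_RT (V : List Bool → List Bool) (p q : Polynomial ℕ) (L : Set (List Bool)) :
    IsClosed {T : ℕ → Bool | RT T V p q L} := by
  have : {T : ℕ → Bool | RT T V p q L} =
      ⋂ x : List Bool, {T | Ok V (pairBits x (pre T (q.eval x.length))) (p.eval x.length) 1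
        (x ∈ L)} := by
    ext T
    simp only [Set.mem_iInter]
    rfl
  rw [this]
  exact isClosed_iInter fun x =>
    isClosed_pre (fun l => Ok V (pairBits x l) (p.eval x.length) 1 (x ∈ L)) _

theorem countable_index2 : Countable ({V : List Bool → List Bool | PolyTime V} × Polynomial ℕ ×
    Polynomial ℕ) := by
  have h1 : Countable (Polynomial ℕ) := by
    have : Function.Injective (fun p : Polynomial ℕ => (p.toFinsupp.coeff : ℕ →₀ ℕ)) := by
      intro p q h
      ext n
      exact DFunLike.congr_fun h n
    exact this.countable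
  have h2 : Countable {D : List Bool → List Bool | PolyTime D} :=
    Pool.Agent.NPC.PIso.countable_polyTime.to_subtype
  infer_instance

/-- A language outside `P` stays outside `P` relative to generic tally oracles. -/
theorem generic_notP {L : Set (List Bool)} (hL : ¬ InP L) :
    ∀ᶠ T in residual (ℕ → Bool), ¬ IsP (tal T) L := by
  have h0 := countable_index2
  have h1 : ∀ i : {V : List Bool → List Bool | PolyTime V} × Polynomial ℕ × Polynomial ℕ,
      ∀ᶠ T in residual (ℕ → Bool), ¬ PT T i.1.1 i.2.1 L := by
    rintro ⟨⟨W, hW⟩, q, -⟩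
    refine residual_of (isClosed_PT W q L) fun T n => ⟨trunc T n, fun i hi => if_pos hi, ?_⟩
    intro h
    refine hL ⟨fun x => W (pairBits x (pre (trunc T n) (q.eval x.length))), ?_, h⟩
    have hx : UPoly (fun x : List Bool => q.eval x.length) :=
      UPoly.eval (UPoly.length NPC.Poly.id) q
    exact polyTime_of_poly' ((poly_of_polyTime hW).comp
      (poly_pairBits NPC.Poly.id (poly_trunc T n hx)))
  rw [← eventually_countable_forall] at h1
  filter_upwards [h1] with T hT h
  obtain ⟨W, q, hW, hP⟩ := isP_iff.1 h
  exact hT (⟨W, hW⟩, q, 0) hP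

theorem inRP_of_trunc {T : ℕ → Bool} {n : ℕ} {V : List Bool → List Bool} {p q : Polynomial ℕ}
    {L : Set (List Bool)} (hV : PolyTime V) (h : RT (trunc T n) V p q L) : InRP L := by
  have k0 : Poly (fun y : List Bool => unpair y) := poly_unpair
  have k1 : Poly (fun y : List Bool => (unpair y).1) := k0.fst
  have k2 : Poly (fun y : List Bool => (unpair y).2) := k0.snd
  have hx : UPoly (fun y : List Bool => q.eval (unpair y).1.length) :=
    UPoly.eval (UPoly.length k1) q
  refine ⟨p, fun y => V (pairBits (pairBits (unpair y).1 (pre (trunc T n)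
    (q.eval (unpair y).1.length))) (unpair y).2), ?_, fun x => ?_⟩
  · exact polyTime_of_poly' ((poly_of_polyTime hV).comp (poly_pairBits (poly_pairBits k1
      (poly_trunc T n hx)) k2))
  · exact (h x).congr Iff.rfl fun w _ => by rw [unpair_pairBits]

/-- A language outside `RP` stays outside `RP` relative to generic tally oracles. -/
theorem generic_notRP {L : Set (List Bool)} (hL : ¬ InRP L) :
    ∀ᶠ T in residual (ℕ → Bool), ¬ RPo (tal T) L := by
  have h0 := countable_index2
  have h1 : ∀ i : {V : List Bool → List Bool | PolyTime V} × Polynomial ℕ × Polynomial ℕ,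
      ∀ᶠ T in residual (ℕ → Bool), ¬ RT T i.1.1 i.2.1 i.2.2 L := by
    rintro ⟨⟨V, hV⟩, p, q⟩
    exact residual_of (isClosed_RT V p q L) fun T n => ⟨trunc T n, fun i hi => if_pos hi,
      fun h => hL (inRP_of_trunc hV h)⟩
  rw [← eventually_countable_forall] at h1
  filter_upwards [h1] with T hT h
  obtain ⟨V, p, q, hV, hP⟩ := rpo_iff.1 h
  exact hT (⟨V, hV⟩, p, q) hP

/-- The promise for the machine `V` with a table. -/
def Prm (V : List Bool → List Bool) (r : ℕ) (x t : List Bool) : Prop :=
  2 ^ r ≤ 2 * acc V (pairBits x t) r ∨ acc V (pairBits x t) r = 0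

theorem isClosed_prm (V : List Bool → List Bool) (p q : Polynomial ℕ) :
    IsClosed {T : ℕ → Bool | ∀ x : List Bool, Prm V (p.eval x.length) x
      (pre T (q.eval x.length))} := by
  have : {T : ℕ → Bool | ∀ x : List Bool, Prm V (p.eval x.length) x (pre T (q.eval x.length))} =
      ⋂ x : List Bool, {T | Prm V (p.eval x.length) x (pre T (q.eval x.length))} := by
    ext T
    simp only [Set.mem_iInter]
    rfl
  rw [this]
  exact isClosed_iInter fun x => isClosed_pre (fun l => Prm V (p.eval x.length) x l) _

theorem rt_prm {T : ℕ → Bool} {V : List Bool → List Bool} {p q : Polynomial ℕ}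
    {L : Set (List Bool)} (h : RT T V p q L) (x : List Bool) :
    Prm V (p.eval x.length) x (pre T (q.eval x.length)) := by
  obtain ⟨h1, h2⟩ := h x
  by_cases hx : x ∈ L
  · exact Or.inl (by simpa using h1 hx)
  · exact Or.inr (h2 hx)

/-- Overwriting the first `n` entries of a table. -/
def ovr (σ : List Bool) (n k : ℕ) (t : List Bool) : List Bool :=
  (List.range k).map (fun j => if j < n then σ.getD j false else t.getD j false)

theorem poly_ovr (σ : List Bool) (n : ℕ) {α : Type} [TEnc α] {k : α → ℕ} {t : α → List Bool}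
    (hk : UPoly k) (ht : Poly t) : Poly (fun a => ovr σ n (k a) (t a)) := by
  have h1 : Poly (fun p : α × ℕ => p.2) := NPC.Poly.snd NPC.Poly.id
  refine NPC.Poly.map (F := fun a j => if j < n then σ.getD j false else (t a).getD j false)
    hk.range ?_
  exact NPC.Poly.ite (NPC.Poly.decide_lt h1 (NPC.Poly.const n))
    (NPC.Poly.getD (NPC.Poly.const _) h1 (NPC.Poly.const _))
    (NPC.Poly.getD (ht.comp (NPC.Poly.fst NPC.Poly.id)) h1 (NPC.Poly.const _))

/-- If `P = RP` then `P = RP` relative to generic tally oracles. -/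
theorem generic_peqRP (h : ∀ L, InRP L → InP L) :
    ∀ᶠ T in residual (ℕ → Bool), PeqRP (tal T) := by
  have h0 := countable_index2
  have h1 : ∀ i : {V : List Bool → List Bool | PolyTime V} × Polynomial ℕ × Polynomial ℕ,
      ∀ᶠ T in residual (ℕ → Bool), (∀ x : List Bool, Prm i.1.1 (i.2.1.eval x.length) x
        (pre T (i.2.2.eval x.length))) → ∃ n, ∀ T' : ℕ → Bool, (∀ i < n, T' i = T i) →
        ∀ x : List Bool, Prm i.1.1 (i.2.1.eval x.length) x (pre T' (i.2.2.eval x.length)) :=
    fun i => residual_interior (isClosed_prm i.1.1 i.2.1 i.2.2)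
  rw [← eventually_countable_forall] at h1
  filter_upwards [h1] with T hT
  refine peqRP_of fun V p q hV L hL => ?_
  obtain ⟨n, hn⟩ := hT (⟨V, hV⟩, p, q) (rt_prm hL)
  have k0 : Poly (fun y : List Bool => unpair y) := poly_unpair
  have k1 : Poly (fun y : List Bool => (unpair y).1) := k0.fst
  have k2 : Poly (fun y : List Bool => (unpair y).2) := k0.snd
  set fix : List Bool → List Bool := fun y =>
    pairBits (unpair y).1 (ovr (pre T n) n (q.eval (unpair y).1.length) (unpair y).2) with hfix
  have kf : Poly fix := poly_pairBits k1 (poly_ovr _ _ (UPoly.eval (UPoly.length k1) q) k2)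
  set R : Set (List Bool) := {y | acc V (fix y) (p.eval (unpair y).1.length) ≠ 0} with hR
  have hRP : InRP R := by
    refine ⟨p, fun y => V (pairBits (fix (unpair y).1) ((unpair y).2.take
      (p.eval (unpair (unpair y).1).1.length))), ?_, fun y => ?_⟩
    · exact polyTime_of_poly' ((poly_of_polyTime hV).comp (poly_pairBits (kf.comp k1)
        (LD.poly_take k2 (UPoly.eval (UPoly.length (k1.comp k1)) p))))
    · have h2 : Ok V (fix y) (p.eval (unpair y).1.length) 1 (y ∈ R) := by
        set T' : ℕ → Bool := fun j => if j < n then T j else (unpair y).2.getD j false with hT'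
        have h3 := hn T' (fun i hi => if_pos hi) (unpair y).1
        have h4 : ovr (pre T n) n (q.eval (unpair y).1.length) (unpair y).2 =
            pre T' (q.eval (unpair y).1.length) := by
          unfold ovr pre
          refine List.map_congr_left fun j _ => ?_
          rw [hT']
          simp only
          split_ifs with hj
          · exact pre_getD T hj
          · rfl
        simp only at h3
        rw [← h4] at h3
        refine ⟨fun hy => ?_, fun hy => not_not.1 hy⟩
        rcases h3 with h3 | h3
        · simpa using h3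
        · exact absurd h3 hy
      refine h2.more (Pool.Agent.NPC.eval_mono p (unpair_fst_len y)) le_rfl fun w _ => ?_
      rw [unpair_pairBits]
  obtain ⟨W, hW, hWR⟩ := h R hRP
  refine isP_iff.2 ⟨W, q, hW, fun x => ?_⟩
  rw [← hWR, hR, Set.mem_ofPred_eq, hfix]
  simp only
  rw [unpair_pairBits]
  have h5 : ovr (pre T n) n (q.eval x.length) (pre T (q.eval x.length)) =
      pre T (q.eval x.length) := by
    unfold ovr
    conv_rhs => unfold pre
    refine List.map_congr_left fun j hj => ?_
    split_ifs with hjn
    · exact pre_getD T hjn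
    · exact pre_getD T (List.mem_range.1 hj)
  simp only
  rw [h5]
  obtain ⟨h6, h7⟩ := hL x
  constructor
  · intro hx h8
    have := h6 hx
    rw [h8, mul_zero] at this
    have : 0 < 2 ^ p.eval x.length := by positivity
    omega
  · intro h8
    by_contra hx
    exact h8 (h7 hx)

end Pool.Agent.L0h33.TL
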