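import Pool.Agent.L0h33.LD.Count

/-!
# Counting strings with a property
-/

set_option autoImplicit false

namespace Pool.Agent.L0h33.TL

open Pool.Agent.NPC Pool.Agent.L0h33.LD

open Classical in
/-- The number of strings of length `r` with the property `P`. -/
noncomputable def cnt (r : ℕ) (P : List Bool → Prop) : ℕ :=
  (Finset.univ.filter fun w : Fin r → Bool => P (List.ofFn w)).card

theorem mem_cnt {r : ℕ} {P : List Bool → Prop} {w : Fin r → Bool} :
    (w ∈ @Finset.filter _ (fun w : Fin r → Bool => P (List.ofFn w))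
      (fun _ => Classical.propDecidable _) Finset.univ) ↔ P (List.ofFn w) := by
  simp

theorem acc_cnt (V : List Bool → List Bool) (x : List Bool) (r : ℕ) :
    acc V x r = cnt r (fun w => V (pairBits x w) = [true]) := by
  unfold acc cnt
  congr

open Classical in
theorem cnt_le (r : ℕ) (P : List Bool → Prop) : cnt r P ≤ 2 ^ r := by
  unfold cnt
  refine (Finset.card_filter_le _ _).trans ?_
  simp

open Classical in
theorem cnt_mono {r : ℕ} {P Q : List Bool → Prop} (h : ∀ w, w.length = r → P w → Q w) :
    cnt r P ≤ cnt r Q := by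
  unfold cnt
  refine Finset.card_le_card fun w hw => ?_
  rw [Finset.mem_filter] at hw ⊢
  exact ⟨hw.1, h _ (by simp) hw.2⟩

theorem cnt_congr {r : ℕ} {P Q : List Bool → Prop} (h : ∀ w, w.length = r → (P w ↔ Q w)) :
    cnt r P = cnt r Q :=
  le_antisymm (cnt_mono fun w hw => (h w hw).1) (cnt_mono fun w hw => (h w hw).2)

theorem cnt_compl (r : ℕ) (P : List Bool → Prop) : cnt r P + cnt r (fun w => ¬ P w) = 2 ^ r := by
  unfold cnt
  rw [Finset.card_filter_add_card_filter_not]
  simp

open Classical in
theorem cnt_pos {r : ℕ} {P : List Bool → Prop} : cnt r P ≠ 0 ↔ ∃ w, w.length = r ∧ P w := by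
  unfold cnt
  rw [Finset.card_ne_zero]
  constructor
  · rintro ⟨w, hw⟩
    exact ⟨List.ofFn w, by simp, (Finset.mem_filter.1 hw).2⟩
  · rintro ⟨w, rfl, hP⟩
    exact ⟨w.get, by rw [Finset.mem_filter]; exact ⟨Finset.mem_univ _, by rwa [List.ofFn_get]⟩⟩

theorem cnt_zero {r : ℕ} {P : List Bool → Prop} : cnt r P = 0 ↔ ∀ w, w.length = r → ¬ P w := by
  have := @cnt_pos r P
  constructor
  · intro h w hw hP
    exact this.2 ⟨w, hw, hP⟩ h
  · intro h
    by_contra h0
    obtain ⟨w, hw, hP⟩ := this.1 h0
    exact h w hw hP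

theorem cnt_or (r : ℕ) (P Q : List Bool → Prop) : cnt r (fun w => P w ∨ Q w) ≤ cnt r P + cnt r Q := by
  classical
  unfold cnt
  refine le_trans ?_ (Finset.card_union_le _ _)
  refine Finset.card_le_card fun w hw => ?_
  simp only [Finset.mem_filter, Finset.mem_union, Finset.mem_univ, true_and] at hw ⊢
  exact hw

open Classical in
/-- Splitting the string. -/
theorem cnt_sum (a b : ℕ) (R : List Bool → Prop) :
    cnt (a + b) R = ∑ u : Fin a → Bool, cnt b (fun v => R (List.ofFn u ++ v)) := by
  unfold cnt
  rw [← Finset.card_sigma]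
  symm
  refine Finset.card_bij' (fun p _ => Fin.append p.1 p.2)
    (fun w _ => ⟨((Fin.appendEquiv a b).symm w).1, ((Fin.appendEquiv a b).symm w).2⟩) ?_ ?_ ?_ ?_
  · rintro ⟨u, v⟩ h
    rw [Finset.mem_sigma, Finset.mem_filter] at h
    rw [Finset.mem_filter]
    exact ⟨Finset.mem_univ _, by rw [List.ofFn_fin_append]; exact h.2.2⟩
  · intro w h
    rw [Finset.mem_filter] at h
    rw [Finset.mem_sigma, Finset.mem_filter]
    refine ⟨Finset.mem_univ _, Finset.mem_univ _, ?_⟩
    have h1 := (Fin.appendEquiv a b).apply_symm_apply w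
    rw [show (Fin.appendEquiv a b) ((Fin.appendEquiv a b).symm w) =
        Fin.append ((Fin.appendEquiv a b).symm w).1 ((Fin.appendEquiv a b).symm w).2 from rfl] at h1
    have h2 := h.2
    rw [← h1, List.ofFn_fin_append] at h2
    exact h2
  · rintro ⟨u, v⟩ _
    have h1 := (Fin.appendEquiv a b).symm_apply_apply (u, v)
    rw [show (Fin.appendEquiv a b) (u, v) = Fin.append u v from rfl] at h1
    simp only [h1]
  · intro w _
    exact (Fin.appendEquiv a b).apply_symm_apply w

theorem cnt_dep {a b K : ℕ} {R : List Bool → Prop}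
    (h : ∀ u : List Bool, u.length = a → K * cnt b (fun v => R (u ++ v)) ≤ 2 ^ b) :
    K * cnt (a + b) R ≤ 2 ^ (a + b) := by
  rw [cnt_sum, Finset.mul_sum]
  calc ∑ u : Fin a → Bool, K * cnt b (fun v => R (List.ofFn u ++ v))
      ≤ ∑ _u : Fin a → Bool, 2 ^ b := Finset.sum_le_sum fun u _ => h _ (by simp)
    _ = 2 ^ (a + b) := by simp [pow_add]

theorem cnt_prod (a b : ℕ) (P Q : List Bool → Prop) :
    cnt (a + b) (fun w => P (w.take a) ∧ Q (w.drop a)) = cnt a P * cnt b Q := by
  classical
  rw [cnt_sum]
  have h1 : ∀ u : Fin a → Bool, cnt b (fun v => P ((List.ofFn u ++ v).take a) ∧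
      Q ((List.ofFn u ++ v).drop a)) = if P (List.ofFn u) then cnt b Q else 0 := by
    intro u
    have h2 : ∀ v : List Bool, (List.ofFn u ++ v).take a = List.ofFn u := fun v =>
      List.take_left' (by simp)
    have h3 : ∀ v : List Bool, (List.ofFn u ++ v).drop a = v := fun v =>
      List.drop_left' (by simp)
    simp only [h2, h3]
    split_ifs with h
    · exact cnt_congr fun w _ => by simp [h]
    · rw [cnt_zero]
      intro w _ hw
      exact h hw.1
  rw [Finset.sum_congr rfl fun u _ => h1 u, ← Finset.sum_filter, Finset.sum_const, smul_eq_mul]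
  unfold cnt
  congr

/-- The block number `i` of length `r`. -/
def blk (r i : ℕ) (v : List Bool) : List Bool := (v.drop (i * r)).take r

theorem blk_length {r i m : ℕ} {v : List Bool} (hv : v.length = m * r) (hi : i < m) :
    (blk r i v).length = r := by
  unfold blk
  rw [List.length_take, List.length_drop, hv, ← Nat.sub_mul]
  refine min_eq_left ?_
  exact Nat.le_mul_of_pos_left _ (by omega)

theorem cnt_blocks (r : ℕ) (P : List Bool → Prop) : ∀ m : ℕ,
    cnt (m * r) (fun v => ∀ i < m, P (blk r i v)) = cnt r P ^ m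
  | 0 => by
    rw [Nat.zero_mul, pow_zero]
    unfold cnt
    simp
  | m + 1 => by
    rw [Nat.add_mul, Nat.one_mul, pow_succ, ← cnt_blocks r P m]
    rw [← cnt_prod]
    refine cnt_congr fun w hw => ?_
    have h1 : ∀ i < m, blk r i (w.take (m * r)) = blk r i w := by
      intro i hi
      unfold blk
      rw [List.drop_take, List.take_take]
      congr 1
      refine min_eq_left ?_
      rw [← Nat.sub_mul]
      exact Nat.le_mul_of_pos_left _ (by omega)
    have h2 : blk r m w = w.drop (m * r) := by
      unfold blk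
      refine List.take_of_length_le ?_
      rw [List.length_drop]
      omega
    constructor
    · intro h
      refine ⟨fun i hi => by rw [h1 i hi]; exact h i (by omega), ?_⟩
      rw [← h2]
      exact h m (by omega)
    · rintro ⟨h3, h4⟩ i hi
      rcases Nat.lt_succ_iff_lt_or_eq.1 hi with hi | rfl
      · rw [← h1 i hi]
        exact h3 i hi
      · rw [h2]
        exact h4

end Pool.Agent.L0h33.TL
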