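import Pool.Agent.L0h33.TL.Sim
import Pool.Agent.L0h33.TL.Count

/-!
# Repeated trials
-/

set_option autoImplicit false

namespace Pool.Agent.L0h33.TL

open Function Pool.Agent.NPC Pool.Agent.L0h33.LD Pool.Agent.H660R2.NX
open Pool.Agent.H620R2.Gauge (Oracle IsFP IsP Alg)
open Pool.Agent.H639R2.NTP.C5 (allL mem_allL)

attribute [local irreducible] unpair

/-- The window of length `r` from `s` on. -/
def win (s r : ℕ) (v : List Bool) : List Bool := (List.range r).map (fun j => v.getD (s + j) false)

@[simp] theorem win_length (s r : ℕ) (v : List Bool) : (win s r v).length = r := by simp [win]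

theorem win_eq {s r : ℕ} {v : List Bool} (h : s + r ≤ v.length) :
    win s r v = (v.drop s).take r := by
  refine List.ext_getElem (by simp; omega) fun i h1 h2 => ?_
  have h3 : i < r := by simpa using h1
  simp only [win, List.getElem_map, List.getElem_range, List.getElem_take, List.getElem_drop]
  rw [List.getD_eq_getElem _ _ (by omega)]

theorem blk_eq {r i m : ℕ} {v : List Bool} (hv : v.length = m * r) (hi : i < m) :
    blk r i v = win (i * r) r v := by
  rw [win_eq]
  · rfl
  · rw [hv]
    calc i * r + r = (i + 1) * r := by ring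
      _ ≤ m * r := Nat.mul_le_mul_right _ hi

theorem win_drop {s r q : ℕ} {v : List Bool} : win s r (v.drop q) = win (q + s) r v := by
  unfold win
  refine List.map_congr_left fun j _ => ?_
  rw [List.getD_eq_getElem?_getD, List.getD_eq_getElem?_getD, List.getElem?_drop, add_assoc]

theorem win_take {s r n : ℕ} {v : List Bool} (h : s + r ≤ n) : win s r (v.take n) = win s r v := by
  unfold win
  refine List.map_congr_left fun j hj => ?_
  have := List.mem_range.1 hj
  rw [List.getD_eq_getElem?_getD, List.getD_eq_getElem?_getD, List.getElem?_take,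
    if_pos (by omega)]

section

variable {α : Type} [TEnc α]

theorem poly_win {s r : α → ℕ} {v : α → List Bool} (hs : Poly s) (hr : UPoly r) (hv : Poly v) :
    Poly (fun a => win (s a) (r a) (v a)) :=
  NPC.Poly.map (F := fun a j => (v a).getD (s a + j) false) hr.range
    (NPC.Poly.getD (hv.comp (NPC.Poly.fst NPC.Poly.id))
      (NPC.Poly.add (hs.comp (NPC.Poly.fst NPC.Poly.id)) (NPC.Poly.snd NPC.Poly.id))
      (NPC.Poly.const false))

theorem poly_test {V : List Bool → List Bool} (hV : PolyTime V) {y w : α → List Bool}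
    (hy : Poly y) (hw : Poly w) : Poly (fun a => decide (V (pairBits (y a) (w a)) = [true])) :=
  NPC.Poly.decide_eq ((poly_of_polyTime hV).comp (poly_pairBits hy hw)) (NPC.Poly.const [true])

end

/-- At least one of `m` trials, with random bits from the position `s` of `v` on, accepts. -/
def trials (V : List Bool → List Bool) (y : List Bool) (s r m : ℕ) (v : List Bool) : Bool :=
  (List.range m).any (fun i => decide (V (pairBits y (win (s + i * r) r v)) = [true]))

theorem poly_trials {α : Type} [TEnc α] {V : List Bool → List Bool} (hV : PolyTime V)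
    {y v : α → List Bool} {s r m : α → ℕ} (hy : Poly y) (hs : UPoly s) (hr : UPoly r)
    (hm : UPoly m) (hv : Poly v) : Poly (fun a => trials V (y a) (s a) (r a) (m a) (v a)) := by
  have h1 : Poly (fun a : α × ℕ => a.1) := NPC.Poly.fst NPC.Poly.id
  refine NPC.Poly.any (p := fun a i => decide (V (pairBits (y a) (win (s a + i * r a) (r a)
    (v a))) = [true])) hm.range ?_
  exact poly_test hV (hy.comp h1) (poly_win (NPC.Poly.add (hs.toPoly.comp h1)
    (NPC.Poly.mul (NPC.Poly.snd NPC.Poly.id) (hr.toPoly.comp h1))) (hr.comp h1) (hv.comp h1))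

theorem trials_true {V : List Bool → List Bool} {y : List Bool} {s r m : ℕ} {v : List Bool} :
    trials V y s r m v = true ↔ ∃ i < m, V (pairBits y (win (s + i * r) r v)) = [true] := by
  unfold trials
  simp

theorem trials_sound {V : List Bool → List Bool} {y : List Bool} {s r m : ℕ} {v : List Bool}
    (h : acc V y r = 0) : trials V y s r m v ≠ true := by
  rw [Ne, trials_true]
  rintro ⟨i, _, hi⟩
  rw [acc_cnt, cnt_zero] at h
  exact h _ (by simp) hi

theorem trials_sound' {V : List Bool → List Bool} {y : List Bool} {s r m : ℕ} {v : List Bool}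
    (h : acc V y r = 0) (ht : trials V y s r m v = true) : False := trials_sound h ht

theorem cnt_trials (V : List Bool → List Bool) (y : List Bool) (r m : ℕ) :
    cnt (m * r) (fun v => trials V y 0 r m v ≠ true) =
      cnt r (fun w => V (pairBits y w) ≠ [true]) ^ m := by
  rw [← cnt_blocks]
  refine cnt_congr fun w hw => ?_
  rw [Ne, trials_true]
  push Not
  refine forall₂_congr fun i hi => ?_
  rw [blk_eq hw hi, Nat.zero_add]

theorem two_mul_pow_le {f s k N : ℕ} (hfs : f + s = N) (h : N ≤ k * s) (hk : 0 < k) :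
    2 * f ^ k ≤ N ^ k := by
  have key : ∀ j : ℕ, f ^ (j + 1) + (j + 1) * (f ^ j * s) ≤ (f + s) ^ (j + 1) := by
    intro j
    induction j with
    | zero => simp
    | succ j ih =>
      calc f ^ (j + 2) + (j + 1 + 1) * (f ^ (j + 1) * s)
          ≤ (f + s) * (f ^ (j + 1) + (j + 1) * (f ^ j * s)) := by
            have : 0 ≤ s * ((j + 1) * (f ^ j * s)) := Nat.zero_le _
            have e : (f + s) * (f ^ (j + 1) + (j + 1) * (f ^ j * s)) =
              f ^ (j + 2) + (j + 1 + 1) * (f ^ (j + 1) * s) + s * ((j + 1) * (f ^ j * s)) := by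
              ring
            omega
        _ ≤ (f + s) * (f + s) ^ (j + 1) := Nat.mul_le_mul_left _ ih
        _ = (f + s) ^ (j + 2) := by ring
  obtain ⟨j, rfl⟩ : ∃ j, k = j + 1 := ⟨k - 1, by omega⟩
  have h1 := key j
  rw [hfs] at h1
  have h2 : f ^ (j + 1) ≤ (j + 1) * (f ^ j * s) := by
    calc f ^ (j + 1) = f ^ j * f := pow_succ _ _
      _ ≤ f ^ j * ((j + 1) * s) := Nat.mul_le_mul_left _ (by omega)
      _ = _ := by ring
  omega

theorem trials_rej {V : List Bool → List Bool} {y : List Bool} {r m : ℕ}
    (h : 2 ^ r ≤ 2 * acc V y r) :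
    2 ^ m * cnt (m * r) (fun v => trials V y 0 r m v ≠ true) ≤ 2 ^ (m * r) := by
  rw [cnt_trials, ← mul_pow, mul_comm m r, pow_mul]
  refine Nat.pow_le_pow_left ?_ _
  have h1 : cnt r (fun w => V (pairBits y w) = [true]) +
    cnt r (fun w => V (pairBits y w) ≠ [true]) = 2 ^ r := cnt_compl r _
  rw [acc_cnt] at h
  omega

/-- Replacing a finite number of values. -/
theorem pt_patch {T : ℕ → Bool} {W : List Bool → List Bool} {q : Polynomial ℕ}
    {L : Set (List Bool)} (hW : PolyTime W) (m : ℕ)
    (h : ∀ x : List Bool, m ≤ x.length → (x ∈ L ↔ W (pairBits x (pre T (q.eval x.length))) = [true])) :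
    ∃ W' : List Bool → List Bool, PolyTime W' ∧ PT T W' q L := by
  classical
  set F : List (List Bool) := (allL m).filter (fun x => decide (x ∈ L)) with hF
  set W' : List Bool → List Bool := fun y => if (unpair y).1.length < m then
    [decide ((unpair y).1 ∈ F)] else W y with hW'
  have h0 : Poly (fun y : List Bool => unpair y) := poly_unpair
  have h1 : Poly (fun y : List Bool => (unpair y).1) := h0.fst
  have hWp : Poly W' :=
    NPC.Poly.ite (NPC.Poly.decide_lt (NPC.Poly.length h1) (NPC.Poly.const m))
      (NPC.Poly.cons ((NPC.Poly.decide_mem h1 (NPC.Poly.const F)).congr fun _ => by congr)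
        (NPC.Poly.const [])) (poly_of_polyTime hW)
  refine ⟨W', polyTime_of_poly' hWp, fun x => ?_⟩
  rw [hW']
  simp only
  rw [unpair_pairBits]
  by_cases hx : x.length < m
  · simp only [hx, if_true, List.cons.injEq, decide_eq_true_eq, and_true, hF, List.mem_filter,
      mem_allL]
    exact ⟨fun h => ⟨hx.le, h⟩, fun h => h.2⟩
  · simp only [hx, if_false]
    exact h x (not_lt.1 hx)

theorem isP_of_patch {T : ℕ → Bool} {W : List Bool → List Bool} {q : Polynomial ℕ}
    {L : Set (List Bool)} (hW : PolyTime W) (m : ℕ)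
    (h : ∀ x : List Bool, m ≤ x.length → (x ∈ L ↔ W (pairBits x (pre T (q.eval x.length))) = [true])) :
    IsP (tal T) L := by
  obtain ⟨W', h1, h2⟩ := pt_patch hW m h
  exact isP_iff.2 ⟨W', q, h1, h2⟩

theorem peqRP_of {T : ℕ → Bool}
    (h : ∀ (V : List Bool → List Bool) (p q : Polynomial ℕ), PolyTime V →
      ∀ L, RT T V p q L → IsP (tal T) L) : PeqRP (tal T) := by
  intro L
  refine ⟨fun hL => ?_, isP_rpo⟩
  obtain ⟨V, p, q, hV, hR⟩ := rpo_iff.1 hL
  exact h V p q hV L hR

end Pool.Agent.L0h33.TL
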