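import Pool.Agent.L0h33.LD.Defs
import Pool.Agent.H620R2.Gauge.Defs

/-!
# Tally oracles
-/

set_option autoImplicit false

namespace Pool.Agent.L0h33.TL

open Pool.Agent.NPC Pool.Agent.L0h33.LD MeasureTheory
open Pool.Agent.H620R2.Gauge (Oracle IsFP IsP)

/-- The tally oracle given by `T`: it contains the strings `1 ^ n` with `T n = true`, and no string
with a zero. -/
def tal (T : ℕ → Bool) : Oracle := fun q => decide (q = List.replicate q.length true) && T q.length

/-- `RP` relative to the oracle `A`: for a random string `w` of length `p (|x|)` the algorithm `V`,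
with oracle `A`, accepts `⟨x, w⟩` with probability at least `1/2` if `x` is in `L`, and never if
`x` is not in `L`. -/
def RPo (A : Oracle) (L : Set (List Bool)) : Prop :=
  ∃ (V : List Bool → List Bool) (p : Polynomial ℕ), IsFP A V ∧ ∀ x,
    (x ∈ L → 2 ^ p.eval x.length ≤ 2 * acc V x (p.eval x.length)) ∧
    (x ∉ L → acc V x (p.eval x.length) = 0)

/-- `NP` relative to the oracle `A`. -/
def NPo (A : Oracle) (L : Set (List Bool)) : Prop :=
  ∃ (V : List Bool → List Bool) (p : Polynomial ℕ), IsFP A V ∧
    ∀ x, x ∈ L ↔ ∃ w : Fin (p.eval x.length) → Bool, V (pairBits x (List.ofFn w)) = [true]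

/-- `P = RP` relative to the oracle `A`. -/
def PeqRP (A : Oracle) : Prop := ∀ L, RPo A L ↔ IsP A L

/-- `RP = NP` relative to the oracle `A`. -/
def RPeqNP (A : Oracle) : Prop := ∀ L, NPo A L ↔ RPo A L

/-- `prRP = prP`: for every polynomial-time machine `V` some polynomial-time algorithm `W`
distinguishes the inputs which are accepted by `V` with probability at least `1/2` from those which
are accepted with probability `0`. Nothing is required from `W` on the other inputs. -/
def PromiseEq : Prop :=
  ∀ (V : List Bool → List Bool) (p : Polynomial ℕ), PolyTime V →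
    ∃ W : List Bool → List Bool, PolyTime W ∧ ∀ x,
      (2 ^ p.eval x.length ≤ 2 * acc V x (p.eval x.length) → W x = [true]) ∧
      (acc V x (p.eval x.length) = 0 → W x ≠ [true])

/-- The fair coin. -/
noncomputable def coin : Measure Bool :=
  (2⁻¹ : ENNReal) • Measure.dirac true + (2⁻¹ : ENNReal) • Measure.dirac false

instance : IsProbabilityMeasure coin := ⟨by
  simp [coin, ENNReal.inv_two_add_inv_two]⟩

/-- The distribution of a random tally oracle: independent tosses of a fair coin. -/
noncomputable def fair : Measure (ℕ → Bool) := Measure.infinitePi (fun _ : ℕ => coin)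

end Pool.Agent.L0h33.TL
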