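import Pool.Agent.L0h33.TL.Amp

/-!
# Random tally oracles
-/

set_option autoImplicit false

namespace Pool.Agent.L0h33.TL

open Function Pool.Agent.NPC Pool.Agent.L0h33.LD Pool.Agent.H660R2.NX MeasureTheory
open Pool.Agent.H620R2.Gauge (Oracle IsFP IsP Alg)
open Pool.Agent.H639R2.NTP.C5 (allL mem_allL)
open scoped ENNReal

attribute [local irreducible] unpair

theorem coin_single (b : Bool) : coin {b} = 2⁻¹ := by
  unfold coin
  rw [Measure.add_apply, Measure.smul_apply, Measure.smul_apply,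
    Measure.dirac_apply' _ (measurableSet_singleton _),
    Measure.dirac_apply' _ (measurableSet_singleton _)]
  cases b <;> simp

instance : IsProbabilityMeasure fair := by
  unfold fair
  infer_instance

theorem fair_cyl (N : ℕ) (w : Fin N → Bool) :
    fair {T | pre T N = List.ofFn w} = (2⁻¹ : ℝ≥0∞) ^ N := by
  have h1 : {T : ℕ → Bool | pre T N = List.ofFn w} =
      Set.pi (Finset.range N : Set ℕ) (fun i => {if h : i < N then w ⟨i, h⟩ else true}) := by
    ext T
    simp only [Set.mem_pi, Set.mem_singleton_iff, Finset.coe_range, Set.mem_Iio]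
    rw [Set.mem_ofPred_eq]
    constructor
    · intro h i hi
      rw [dif_pos hi, ← pre_getD T hi, h, List.getD_eq_getElem _ _ (by simpa using hi)]
      simp
    · intro h
      refine List.ext_getElem (by simp) fun i h2 h3 => ?_
      have hi : i < N := by simpa using h2
      rw [List.getElem_ofFn, ← List.getD_eq_getElem _ false h2, pre_getD T hi, h i hi, dif_pos hi]
  rw [h1]
  unfold fair
  rw [Measure.infinitePi_pi _ (fun i _ => measurableSet_singleton _)]
  simp only [coin_single, Finset.prod_const, Finset.card_range]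

theorem fair_le (N : ℕ) (S : List Bool → Prop) :
    fair {T | S (pre T N)} ≤ (cnt N S : ℝ≥0∞) * (2⁻¹ : ℝ≥0∞) ^ N := by
  classical
  have h1 : {T : ℕ → Bool | S (pre T N)} ⊆
      ⋃ w ∈ (Finset.univ.filter fun w : Fin N → Bool => S (List.ofFn w)),
        {T | pre T N = List.ofFn w} := by
    intro T hT
    rw [Set.mem_ofPred_eq] at hT
    simp only [Set.mem_iUnion, Finset.mem_filter, Finset.mem_univ, true_and]
    have h2 : List.ofFn (fun i : Fin N => T i) = pre T N := by
      unfold pre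
      refine List.ext_getElem (by simp) fun i h2 h3 => ?_
      simp
    refine ⟨fun i => T i, by rwa [h2], ?_⟩
    rw [Set.mem_ofPred_eq, h2]
  refine (measure_mono h1).trans ((measure_biUnion_finset_le _ _).trans ?_)
  rw [Finset.sum_congr rfl fun w _ => fair_cyl N w, Finset.sum_const, nsmul_eq_mul]
  refine le_of_eq ?_
  congr 2

theorem fair_bound {N K : ℕ} {S : List Bool → Prop} (h : 2 ^ K * cnt N S ≤ 2 ^ N) :
    fair {T | S (pre T N)} ≤ (2⁻¹ : ℝ≥0∞) ^ K := by
  refine (fair_le N S).trans ?_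
  have h1 : (2 : ℝ≥0∞) ^ K * (cnt N S : ℝ≥0∞) ≤ 2 ^ N := by exact_mod_cast h
  have e : ∀ n : ℕ, (2 : ℝ≥0∞) ^ n * (2⁻¹ : ℝ≥0∞) ^ n = 1 := fun n => by
    rw [← mul_pow, ENNReal.mul_inv_cancel (by norm_num) (by norm_num), one_pow]
  calc (cnt N S : ℝ≥0∞) * (2⁻¹ : ℝ≥0∞) ^ N
      = (2 ^ K * (2⁻¹ : ℝ≥0∞) ^ K) * ((cnt N S : ℝ≥0∞) * (2⁻¹ : ℝ≥0∞) ^ N) := by rw [e, one_mul]
    _ = (2 ^ K * (cnt N S : ℝ≥0∞)) * ((2⁻¹ : ℝ≥0∞) ^ K * (2⁻¹ : ℝ≥0∞) ^ N) := by ring
    _ ≤ 2 ^ N * ((2⁻¹ : ℝ≥0∞) ^ K * (2⁻¹ : ℝ≥0∞) ^ N) := by gcongr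
    _ = (2 ^ N * (2⁻¹ : ℝ≥0∞) ^ N) * (2⁻¹ : ℝ≥0∞) ^ K := by ring
    _ = _ := by rw [e, one_mul]

/-- The bad event for the input `x`. -/
def Bad (V : List Bool → List Bool) (q r m : ℕ) (x t : List Bool) : Prop :=
  2 ^ r ≤ 2 * acc V (pairBits x (t.take q)) r ∧ trials V (pairBits x (t.take q)) q r m t ≠ true

theorem cnt_bad (V : List Bool → List Bool) (q r m : ℕ) (x : List Bool) :
    2 ^ m * cnt (q + m * r) (Bad V q r m x) ≤ 2 ^ (q + m * r) := by
  refine cnt_dep fun u hu => ?_
  by_cases h : 2 ^ r ≤ 2 * acc V (pairBits x u) r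
  · refine le_trans (Nat.mul_le_mul_left _ (cnt_mono fun v hv hb => ?_)) (trials_rej h)
    have h1 := hb.2
    rw [Ne, trials_true] at h1 ⊢
    rintro ⟨i, hi, hV⟩
    refine h1 ⟨i, hi, ?_⟩
    rw [List.take_left' hu]
    rw [← win_drop, List.drop_left' hu]
    simpa using hV
  · have : cnt (m * r) (fun v => Bad V q r m x (u ++ v)) = 0 := by
      rw [cnt_zero]
      intro v _ hb
      refine h ?_
      have := hb.1
      rwa [List.take_left' hu] at this
    rw [this]
    simp

theorem tsum_bad (V : List Bool → List Bool) (q r : ℕ → ℕ) :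
    ∀ᵐ T ∂fair, ∀ᶠ n in Filter.atTop, ∀ x : List Bool, x.length = n →
      ¬ Bad V (q n) (r n) (2 * n + 2) x (pre T (q n + (2 * n + 2) * r n)) := by
  have h1 : ∀ n : ℕ, fair {T | ∃ x : List Bool, x.length = n ∧
      Bad V (q n) (r n) (2 * n + 2) x (pre T (q n + (2 * n + 2) * r n))} ≤ (2⁻¹ : ℝ≥0∞) ^ n := by
    intro n
    have h2 : {T | ∃ x : List Bool, x.length = n ∧
        Bad V (q n) (r n) (2 * n + 2) x (pre T (q n + (2 * n + 2) * r n))} ⊆
        ⋃ x ∈ (Finset.univ : Finset (Fin n → Bool)),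
          {T | Bad V (q n) (r n) (2 * n + 2) (List.ofFn x) (pre T (q n + (2 * n + 2) * r n))} := by
      intro T hT
      obtain ⟨x, rfl, hx⟩ := hT
      simp only [Set.mem_iUnion, Finset.mem_univ]
      refine ⟨x.get, trivial, ?_⟩
      rw [Set.mem_ofPred_eq, List.ofFn_get]
      exact hx
    refine (measure_mono h2).trans ((measure_biUnion_finset_le _ _).trans ?_)
    calc ∑ x : Fin n → Bool, fair {T | Bad V (q n) (r n) (2 * n + 2) (List.ofFn x)
          (pre T (q n + (2 * n + 2) * r n))}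
        ≤ ∑ _x : Fin n → Bool, (2⁻¹ : ℝ≥0∞) ^ (2 * n + 2) :=
          Finset.sum_le_sum fun x _ => fair_bound (cnt_bad V _ _ _ _)
      _ = (2 : ℝ≥0∞) ^ n * (2⁻¹ : ℝ≥0∞) ^ (2 * n + 2) := by
          rw [Finset.sum_const, nsmul_eq_mul]
          simp
      _ = (2 : ℝ≥0∞) ^ n * (2⁻¹ : ℝ≥0∞) ^ n * (2⁻¹ : ℝ≥0∞) ^ (n + 2) := by
          rw [mul_assoc, ← pow_add]
          congr 2
          ring
      _ = (2⁻¹ : ℝ≥0∞) ^ (n + 2) := by
          rw [← mul_pow, ENNReal.mul_inv_cancel (by norm_num) (by norm_num), one_pow, one_mul]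
      _ ≤ (2⁻¹ : ℝ≥0∞) ^ n := by
          rw [pow_add]
          refine mul_le_of_le_one_right' ?_
          refine pow_le_one' ?_ 2
          simp
  have h2 : (∑' n, fair {T | ∃ x : List Bool, x.length = n ∧
      Bad V (q n) (r n) (2 * n + 2) x (pre T (q n + (2 * n + 2) * r n))}) ≠ ∞ := by
    refine ne_top_of_le_ne_top ?_ (ENNReal.tsum_le_tsum h1)
    rw [ENNReal.tsum_geometric]
    simp
  filter_upwards [ae_eventually_notMem h2] with T hT
  filter_upwards [hT] with n hn x hx hb
  exact hn ⟨x, hx, hb⟩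

theorem poly_countable : Countable (Polynomial ℕ) := by
  have : Function.Injective (fun p : Polynomial ℕ => (p.toFinsupp.coeff : ℕ →₀ ℕ)) := by
    intro p q h
    ext n
    exact DFunLike.congr_fun h n
  exact this.countable

theorem countable_index : Countable ({V : List Bool → List Bool | PolyTime V} ×
    Polynomial ℕ × Polynomial ℕ) := by
  have h1 := poly_countable
  have h2 : Countable {D : List Bool → List Bool | PolyTime D} :=
    Pool.Agent.NPC.PIso.countable_polyTime.to_subtype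
  infer_instance

/-- `P = RP` relative to almost every tally oracle. -/
theorem ae_peqRP : ∀ᵐ T ∂fair, PeqRP (tal T) := by
  have h0 := countable_index
  have h1 : ∀ i : {V : List Bool → List Bool | PolyTime V} × Polynomial ℕ × Polynomial ℕ,
      ∀ᵐ T ∂fair, ∀ᶠ n in Filter.atTop, ∀ x : List Bool, x.length = n →
      ¬ Bad i.1.1 (i.2.2.eval n) (i.2.1.eval n) (2 * n + 2) x
        (pre T (i.2.2.eval n + (2 * n + 2) * i.2.1.eval n)) := fun i =>
    tsum_bad i.1.1 (fun n => i.2.2.eval n) (fun n => i.2.1.eval n)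
  rw [← ae_all_iff] at h1
  filter_upwards [h1] with T hT
  refine peqRP_of fun V p q hV L hL => ?_
  obtain ⟨n₀, hn₀⟩ := Filter.eventually_atTop.1 (hT (⟨V, hV⟩, p, q))
  have k0 : Poly (fun y : List Bool => unpair y) := poly_unpair
  have k1 : Poly (fun y : List Bool => (unpair y).1) := k0.fst
  have k2 : Poly (fun y : List Bool => (unpair y).2) := k0.snd
  have kn : UPoly (fun y : List Bool => (unpair y).1.length) := UPoly.length k1
  have kq := kn.eval q
  have kr := kn.eval p
  have km : UPoly (fun y : List Bool => 2 * (unpair y).1.length + 2) :=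
    ((UPoly.const 2).mul kn).add (UPoly.const 2)
  have kW := poly_trials hV (poly_pairBits k1 (LD.poly_take k2 kq)) kq kr km k2
  refine isP_of_patch (q := q + (2 * Polynomial.X + 2) * p)
    (polyTime_of_poly' (NPC.Poly.cons kW (NPC.Poly.const []))) n₀ fun x hx => ?_
  have e : (q + (2 * Polynomial.X + 2) * p).eval x.length =
      q.eval x.length + (2 * x.length + 2) * p.eval x.length := by simp
  rw [unpair_pairBits, e]
  simp only [List.cons.injEq, and_true]
  rw [pre_take _ (by omega)]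
  have h3 := hn₀ x.length hx x rfl
  unfold Bad at h3
  rw [pre_take _ (by omega)] at h3
  obtain ⟨h4, h5⟩ := hL x
  constructor
  · intro hxL
    by_contra h6
    exact h3 ⟨by simpa using h4 hxL, h6⟩
  · intro h6
    by_contra hxL
    exact trials_sound' (h5 hxL) h6

end Pool.Agent.L0h33.TL
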