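import Pool.Agent.L0h33.TL.Top

/-!
# All tally oracles and the promise problem
-/

set_option autoImplicit false

namespace Pool.Agent.L0h33.TL

open Function Pool.Agent.NPC Pool.Agent.L0h33.LD Pool.Agent.H660R2.NX
open Pool.Agent.H620R2.Gauge (Oracle IsFP IsP Alg)
open Pool.Agent.H639R2.NTP.C5 (allL mem_allL)
open Filter

attribute [local irreducible] unpair

/-- If `prRP = prP` then `P = RP` relative to every tally oracle. -/
theorem peqRP_of_promise (h : PromiseEq) (T : ℕ → Bool) : PeqRP (tal T) := by
  refine peqRP_of fun V p q hV L hL => ?_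
  have k0 : Poly (fun y : List Bool => unpair y) := poly_unpair
  have k1 : Poly (fun y : List Bool => (unpair y).1) := k0.fst
  have k2 : Poly (fun y : List Bool => (unpair y).2) := k0.snd
  obtain ⟨W, hW, hWs⟩ := h (fun y => V (pairBits (unpair y).1 ((unpair y).2.take
    (p.eval (unpair (unpair y).1).1.length)))) p (polyTime_of_poly' ((poly_of_polyTime hV).comp
      (poly_pairBits k1 (LD.poly_take k2 (UPoly.eval (UPoly.length (k1.comp k1)) p)))))
  refine isP_iff.2 ⟨W, q, hW, fun x => ?_⟩
  set y := pairBits x (pre T (q.eval x.length)) with hy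
  have h1 : Ok (fun y => V (pairBits (unpair y).1 ((unpair y).2.take
      (p.eval (unpair (unpair y).1).1.length)))) y (p.eval y.length) 1 (x ∈ L) := by
    refine (hL x).more (Pool.Agent.NPC.eval_mono p ?_) le_rfl fun w _ => ?_
    · have := unpair_fst_len y
      rw [hy, unpair_pairBits] at this
      exact this
    · rw [unpair_pairBits]
      simp only
      rw [hy, unpair_pairBits]
  obtain ⟨h2, h3⟩ := hWs y
  constructor
  · intro hx
    exact h2 (by simpa using h1.1 hx)
  · intro hx
    by_contra hxL
    exact h3 (h1.2 hxL) hx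

/-! ### Coding bad instances -/

/-- The place of the block number `n`. -/
def bs (n : ℕ) : ℕ := (n + 1) * (n + 1)

theorem bs_lt {m n : ℕ} (h : m < n) : bs m + m + 1 ≤ bs n := by
  unfold bs
  nlinarith

theorem bs_mono {m n : ℕ} (h : m ≤ n) : bs m ≤ bs n := by
  unfold bs
  nlinarith

theorem le_bs (n : ℕ) : n ≤ bs n := by
  unfold bs
  nlinarith

/-- The instance in the block `n`. -/
def inst (T : ℕ → Bool) (n : ℕ) : List Bool := (List.range n).map (fun j => T (bs n + 1 + j))

@[simp] theorem inst_length (T : ℕ → Bool) (n : ℕ) : (inst T n).length = n := by simp [inst]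

theorem inst_congr {T T' : ℕ → Bool} {n : ℕ} (h : ∀ i < bs n + n + 1, T i = T' i) :
    inst T n = inst T' n := by
  unfold inst
  refine List.map_congr_left fun j hj => h _ ?_
  have := List.mem_range.1 hj
  omega

/-- The promise for an instance. -/
def Pi (V : List Bool → List Bool) (p : Polynomial ℕ) (x : List Bool) : Prop :=
  2 ^ p.eval x.length ≤ 2 * acc V x (p.eval x.length) ∨ acc V x (p.eval x.length) = 0

/-- The oracles which have only instances with the promise. -/
def GG (V : List Bool → List Bool) (p : Polynomial ℕ) : Set (ℕ → Bool) :=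
  {T | ∀ n, T (bs n) = true → Pi V p (inst T n)}

/-- The tally language. -/
def LL (V : List Bool → List Bool) (p : Polynomial ℕ) (T : ℕ → Bool) : Set (List Bool) :=
  {y | y = List.replicate y.length true ∧ T (bs y.length) = true ∧
    acc V (inst T y.length) (p.eval y.length) ≠ 0}

theorem isOpen_of_local {U : Set (ℕ → Bool)}
    (h : ∀ T ∈ U, ∃ n, ∀ T' : ℕ → Bool, (∀ i < n, T' i = T i) → T' ∈ U) : IsOpen U := by
  rw [isOpen_iff_mem_nhds]
  intro T hT
  obtain ⟨n, hn⟩ := h T hT
  refine mem_of_superset ((isOpen_pre (fun l => l = pre T n) n).mem_nhds rfl) fun T' hT' => ?_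
  exact hn T' (pre_inj hT')

theorem mem_LL_congr {V : List Bool → List Bool} {p : Polynomial ℕ} {T T' : ℕ → Bool}
    {y : List Bool} (h : ∀ i < bs y.length + y.length + 1, T i = T' i) :
    y ∈ LL V p T ↔ y ∈ LL V p T' := by
  unfold LL
  rw [Set.mem_ofPred_eq, Set.mem_ofPred_eq, inst_congr h, h _ (by omega)]

theorem isClosed_GG (V : List Bool → List Bool) (p : Polynomial ℕ) : IsClosed (GG V p) := by
  rw [← isOpen_compl_iff]
  refine isOpen_of_local fun T hT => ?_
  have h1 : ¬ ∀ n, T (bs n) = true → Pi V p (inst T n) := hT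
  push Not at h1
  obtain ⟨n, h2, h3⟩ := h1
  refine ⟨bs n + n + 1, fun T' hT' hg => h3 ?_⟩
  rw [← inst_congr hT']
  exact hg n (by rw [hT' _ (by omega)]; exact h2)

/-- The oracles for which `W` errs. -/
def Err (V : List Bool → List Bool) (p : Polynomial ℕ) (W : List Bool → List Bool)
    (q : Polynomial ℕ) : Set (ℕ → Bool) :=
  {T | ∃ y : List Bool, ¬ (y ∈ LL V p T ↔ W (pairBits y (pre T (q.eval y.length))) = [true])}

theorem isOpen_Err (V : List Bool → List Bool) (p : Polynomial ℕ) (W : List Bool → List Bool)
    (q : Polynomial ℕ) : IsOpen (Err V p W q) := by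
  refine isOpen_of_local fun T hT => ?_
  obtain ⟨y, hy⟩ := hT
  refine ⟨bs y.length + y.length + 1 + q.eval y.length, fun T' hT' => ⟨y, ?_⟩⟩
  rw [mem_LL_congr (T := T') (T' := T) fun i hi => hT' i (by omega),
    pre_congr (T := T') (T' := T) fun i hi => hT' i (by omega)]
  exact hy

/-- The oracle `T` up to the block `m`, and the instance `x` in the block `|x|`. -/
def code (T : ℕ → Bool) (m : ℕ) (x : List Bool) : ℕ → Bool := fun i =>
  if i < bs m then T i else if i = bs x.length then true else
    if bs x.length < i ∧ i < bs x.length + x.length + 1 then x.getD (i - bs x.length - 1) false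
    else false

theorem inst_code {T : ℕ → Bool} {m : ℕ} {x : List Bool} (h : m ≤ x.length) :
    inst (code T m x) x.length = x := by
  unfold inst code
  refine List.ext_getElem (by simp) fun i h1 h2 => ?_
  have h3 := bs_mono h
  rw [List.getElem_map, List.getElem_range, if_neg (by omega), if_neg (by omega),
    if_pos (by omega), show bs x.length + 1 + i - bs x.length - 1 = i by omega,
    List.getD_eq_getElem _ _ h2]

theorem code_flag {T : ℕ → Bool} {m : ℕ} {x : List Bool} (h : m ≤ x.length) :
    code T m x (bs x.length) = true := by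
  unfold code
  have h3 := bs_mono h
  rw [if_neg (by omega), if_pos rfl]

theorem code_mem {V : List Bool → List Bool} {p : Polynomial ℕ} {T : ℕ → Bool} {m : ℕ}
    {x : List Bool} (hT : T ∈ GG V p) (h : m ≤ x.length) (hx : Pi V p x) :
    code T m x ∈ GG V p := by
  intro n hn
  rcases lt_or_ge n m with hnm | hnm
  · have h1 := bs_lt hnm
    have h2 : ∀ i < bs n + n + 1, code T m x i = T i := fun i hi => if_pos (by omega)
    rw [inst_congr h2]
    exact hT n (by rw [← h2 _ (by omega)]; exact hn)
  · by_cases hnx : n = x.length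
    · rw [hnx, inst_code h]
      exact hx
    · exfalso
      have h1 := bs_mono hnm
      have h2 : code T m x (bs n) = false := by
        unfold code
        rw [if_neg (by omega)]
        rcases lt_or_gt_of_ne hnx with h3 | h3
        · have h4 := bs_lt h3
          rw [if_neg (by omega), if_neg (by omega)]
        · have h4 := bs_lt h3
          rw [if_neg (by omega), if_neg (by omega)]
      rw [h2] at hn
      simp at hn

theorem poly_code (T : ℕ → Bool) (m : ℕ) (q : Polynomial ℕ) :
    Poly (fun x : List Bool => pre (code T m x) (q.eval x.length)) := by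
  have hq : UPoly (fun x : List Bool => q.eval x.length) :=
    UPoly.eval (UPoly.length NPC.Poly.id) q
  have hb : Poly (fun x : List Bool => bs x.length) := by
    have h1 : Poly (fun x : List Bool => x.length + 1) :=
      NPC.Poly.succ (NPC.Poly.length NPC.Poly.id)
    exact NPC.Poly.mul h1 h1
  have e1 : Poly (fun p : List Bool × ℕ => p.1) := NPC.Poly.fst NPC.Poly.id
  have e2 : Poly (fun p : List Bool × ℕ => p.2) := NPC.Poly.snd NPC.Poly.id
  have hb' := hb.comp e1
  have h1 : Poly (fun p : List Bool × ℕ => if p.2 < bs m then (pre T (bs m)).getD p.2 false else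
      if p.2 = bs p.1.length then true else
      if bs p.1.length < p.2 ∧ p.2 < bs p.1.length + p.1.length + 1 then
        p.1.getD (p.2 - bs p.1.length - 1) false else false) := by
    refine NPC.Poly.ite (NPC.Poly.decide_lt e2 (NPC.Poly.const _))
      (NPC.Poly.getD (NPC.Poly.const _) e2 (NPC.Poly.const _)) ?_
    refine NPC.Poly.ite (NPC.Poly.decide_eq e2 hb') (NPC.Poly.const _) ?_
    refine NPC.Poly.ite (NPC.Poly.decide_and (NPC.Poly.decide_lt hb' e2)
      (NPC.Poly.decide_lt e2 (NPC.Poly.succ (NPC.Poly.add hb' (NPC.Poly.length e1))))) ?_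
      (NPC.Poly.const _)
    exact NPC.Poly.getD e1 (NPC.Poly.sub (NPC.Poly.sub e2 hb') (NPC.Poly.const 1))
      (NPC.Poly.const _)
  refine (NPC.Poly.map (F := fun x i => if i < bs m then (pre T (bs m)).getD i false else
      if i = bs x.length then true else
      if bs x.length < i ∧ i < bs x.length + x.length + 1 then
        x.getD (i - bs x.length - 1) false else false) hq.range h1).congr fun x => ?_
  conv_rhs => unfold pre
  refine List.map_congr_left fun i _ => ?_
  unfold code
  split_ifs with h2
  · exact pre_getD T h2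
  all_goals rfl

/-- Replacing a finite number of values in the solution of a promise problem. -/
theorem promise_patch {V : List Bool → List Bool} {p : Polynomial ℕ} {W : List Bool → List Bool}
    (hW : PolyTime W) (m : ℕ) (h : ∀ x : List Bool, m ≤ x.length →
      (2 ^ p.eval x.length ≤ 2 * acc V x (p.eval x.length) → W x = [true]) ∧
      (acc V x (p.eval x.length) = 0 → W x ≠ [true])) :
    ∃ W' : List Bool → List Bool, PolyTime W' ∧ ∀ x,
      (2 ^ p.eval x.length ≤ 2 * acc V x (p.eval x.length) → W' x = [true]) ∧
      (acc V x (p.eval x.length) = 0 → W' x ≠ [true]) := by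
  classical
  set F : List (List Bool) := (allL m).filter (fun x => decide (acc V x (p.eval x.length) ≠ 0))
    with hF
  refine ⟨fun x => if x.length < m then [decide (x ∈ F)] else W x, ?_, fun x => ?_⟩
  · exact polyTime_of_poly' (NPC.Poly.ite (NPC.Poly.decide_lt (NPC.Poly.length NPC.Poly.id)
      (NPC.Poly.const m)) (NPC.Poly.cons ((NPC.Poly.decide_mem NPC.Poly.id
        (NPC.Poly.const F)).congr fun _ => by congr) (NPC.Poly.const [])) (poly_of_polyTime hW))
  · simp only
    by_cases hx : x.length < m
    · simp only [hx, if_true, List.cons.injEq, decide_eq_true_eq, and_true, hF, List.mem_filter,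
        mem_allL, Ne]
      refine ⟨fun h1 => ⟨hx.le, fun h2 => ?_⟩, fun h1 h2 => h2.2 h1⟩
      rw [h2, mul_zero] at h1
      have : 0 < 2 ^ p.eval x.length := by positivity
      omega
    · simp only [hx, if_false]
      exact h x (not_lt.1 hx)

theorem dense_err {V : List Bool → List Bool} {p : Polynomial ℕ}
    (hno : ¬ ∃ W : List Bool → List Bool, PolyTime W ∧ ∀ x,
      (2 ^ p.eval x.length ≤ 2 * acc V x (p.eval x.length) → W x = [true]) ∧
      (acc V x (p.eval x.length) = 0 → W x ≠ [true]))
    {W : List Bool → List Bool} (hW : PolyTime W) (q : Polynomial ℕ) {T : ℕ → Bool}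
    (hT : T ∈ GG V p) (n : ℕ) :
    ∃ T' ∈ GG V p, (∀ i < n, T' i = T i) ∧ T' ∈ Err V p W q := by
  by_contra hcon
  push Not at hcon
  refine hno (promise_patch (W := fun x => W (pairBits (x.map (fun _ => true))
    (pre (code T n x) (q.eval x.length)))) ?_ n fun x hx => ?_)
  · exact polyTime_of_poly' ((poly_of_polyTime hW).comp (poly_pairBits
      (NPC.Poly.map (F := fun _ _ => true) NPC.Poly.id (NPC.Poly.const true)) (poly_code T n q)))
  · have key : Pi V p x → (acc V x (p.eval x.length) ≠ 0 ↔
        W (pairBits (x.map (fun _ => true)) (pre (code T n x) (q.eval x.length))) = [true]) := by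
      intro hp
      have h1 := hcon _ (code_mem hT hx hp) (fun i hi => if_pos (lt_of_lt_of_le hi (le_bs n)))
      unfold Err at h1
      rw [Set.mem_ofPred_eq] at h1
      push Not at h1
      have h2 := h1 (x.map (fun _ => true))
      rw [List.length_map] at h2
      rw [← h2]
      unfold LL
      rw [Set.mem_ofPred_eq, List.length_map, inst_code hx, code_flag hx]
      simp
    refine ⟨fun h1 => (key (Or.inl h1)).1 fun h2 => ?_, fun h1 h2 => (key (Or.inr h1)).2 h2 h1⟩
    rw [h2, mul_zero] at h1
    have : 0 < 2 ^ p.eval x.length := by positivity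
    omega

theorem rpo_LL {V : List Bool → List Bool} {p : Polynomial ℕ} (hV : PolyTime V) {T : ℕ → Bool}
    (hT : T ∈ GG V p) : RPo (tal T) (LL V p T) := by
  have k0 : Poly (fun y : List Bool => unpair y) := poly_unpair
  have k1 : Poly (fun y : List Bool => (unpair y).1) := k0.fst
  have k2 : Poly (fun y : List Bool => (unpair y).2) := k0.snd
  have kx := k1.comp k1
  have kt := k2.comp k1
  have kb : Poly (fun z : List Bool => bs (unpair (unpair z).1).1.length) := by
    have h1 := NPC.Poly.succ (NPC.Poly.length kx)
    exact NPC.Poly.mul h1 h1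
  have hg : Poly (fun z : List Bool =>
      if (unpair (unpair z).1).1 = (unpair (unpair z).1).1.map (fun _ => true) ∧
        ((unpair (unpair z).1).2.getD (bs (unpair (unpair z).1).1.length) false) = true then
        V (pairBits (win (bs (unpair (unpair z).1).1.length + 1) (unpair (unpair z).1).1.length
          (unpair (unpair z).1).2) (unpair z).2) else []) := by
    refine NPC.Poly.ite (NPC.Poly.decide_and (NPC.Poly.decide_eq kx
      (NPC.Poly.map (F := fun _ _ => true) kx (NPC.Poly.const true)))
      (NPC.Poly.decide_bool (NPC.Poly.getD kt kb (NPC.Poly.const false)))) ?_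
      (NPC.Poly.const [])
    exact (poly_of_polyTime hV).comp (poly_pairBits (poly_win (NPC.Poly.succ kb)
      (UPoly.length kx) kt) k2)
  refine rpo_iff.2 ⟨_, p, (Polynomial.X + 1) * (Polynomial.X + 1) + Polynomial.X + 1,
    polyTime_of_poly' hg, fun x => ?_⟩
  have e : ((Polynomial.X + 1) * (Polynomial.X + 1) + Polynomial.X + 1 : Polynomial ℕ).eval
      x.length = bs x.length + x.length + 1 := by
    unfold bs
    simp
  rw [e]
  have e2 : (pre T (bs x.length + x.length + 1)).getD (bs x.length) false = T (bs x.length) :=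
    pre_getD T (by omega)
  have e3 : win (bs x.length + 1) x.length (pre T (bs x.length + x.length + 1)) =
      inst T x.length := by
    unfold win inst
    refine List.map_congr_left fun j hj => pre_getD T ?_
    have := List.mem_range.1 hj
    omega
  by_cases h1 : x = List.replicate x.length true ∧ T (bs x.length) = true
  · have h2 := hT _ h1.2
    unfold Pi at h2
    rw [inst_length] at h2
    have h3 : Ok V (inst T x.length) (p.eval x.length) 1 (x ∈ LL V p T) := by
      refine ⟨fun hx => ?_, fun hx => ?_⟩
      · rcases h2 with h2 | h2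
        · simpa using h2
        · exact absurd h2 hx.2.2
      · by_contra h4
        exact hx ⟨h1.1, h1.2, h4⟩
    refine h3.congr Iff.rfl fun w _ => ?_
    rw [unpair_pairBits]
    simp only
    rw [unpair_pairBits]
    simp only
    rw [e2, e3, List.map_const', if_pos h1]
  · refine Ok.const fun w => ?_
    rw [unpair_pairBits]
    simp only
    rw [unpair_pairBits]
    simp only
    rw [e2, List.map_const', if_neg h1]
    refine ⟨fun h => by simp at h, fun h => absurd ⟨h.1, h.2.1⟩ h1⟩

/-- If `prRP` and `prP` are different then `P` and `RP` are different relative to some tally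
oracle. -/
theorem promise_of_peqRP (h : ∀ T, PeqRP (tal T)) : PromiseEq := by
  intro V p hV
  by_contra hno
  have h0 : Countable ({V : List Bool → List Bool | PolyTime V} × Polynomial ℕ × Polynomial ℕ) :=
    countable_index2
  have hcl := isClosed_GG V p
  have : CompactSpace (GG V p) := isCompact_iff_compactSpace.1 hcl.isCompact
  have h1 : Dense (⋂ i : {V : List Bool → List Bool | PolyTime V} × Polynomial ℕ × Polynomial ℕ,
      (Subtype.val ⁻¹' Err V p i.1.1 i.2.1 : Set (GG V p))) := by
    refine dense_iInter_of_isOpen (fun i => (isOpen_Err _ _ _ _).preimage continuous_subtype_val)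
      fun i => ?_
    rw [dense_iff_inter_open]
    rintro U hU ⟨⟨T, hTG⟩, hTU⟩
    obtain ⟨U', hU', rfl⟩ := hU
    obtain ⟨n, hn⟩ := exists_prefix hU' hTU
    obtain ⟨T', hT', h2, h3⟩ := dense_err hno i.1.2 i.2.1 hTG n
    exact ⟨⟨T', hT'⟩, hn T' h2, h3⟩
  have hne : Nonempty (GG V p) := ⟨⟨fun _ => false, fun n hn => by simp at hn⟩⟩
  obtain ⟨⟨T, hTG⟩, hT⟩ := h1.nonempty
  obtain ⟨W, q, hW, hPT⟩ := isP_iff.1 ((h T _).1 (rpo_LL hV hTG))
  have h2 := Set.mem_iInter.1 hT (⟨W, hW⟩, q, 0)
  obtain ⟨y, hy⟩ := h2
  exact hy (hPT y)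

end Pool.Agent.L0h33.TL
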