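import Pool.Agent.L0h33.TL.Meas
import Pool.Agent.L0h33.TL.Stage

/-!
# `RP` and `NP` relative to tally oracles
-/

set_option autoImplicit false

namespace Pool.Agent.L0h33.TL

open Function Pool.Agent.NPC Pool.Agent.L0h33.LD Pool.Agent.H660R2.NX MeasureTheory
open Pool.Agent.H620R2.Gauge (Oracle IsFP IsP Alg)
open Pool.Agent.H639R2.NTP.C5 (allL mem_allL)
open Filter
open scoped ENNReal

attribute [local irreducible] unpair

theorem npo_of {T : ℕ → Bool} {L : Set (List Bool)} (h : InNPw L) : NPo (tal T) L := by
  obtain ⟨V, p, hV, hL⟩ := h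
  have k0 : Poly (fun y : List Bool => unpair y) := poly_unpair
  have k1 : Poly (fun y : List Bool => (unpair y).1) := k0.fst
  have k2 : Poly (fun y : List Bool => (unpair y).2) := k0.snd
  refine npo_iff.2 ⟨fun z => V (pairBits (unpair (unpair z).1).1 (unpair z).2), p, 0,
    polyTime_of_poly' ((poly_of_polyTime hV).comp (poly_pairBits (k1.comp k1) k2)), fun x => ?_⟩
  have h1 : Ok V x (p.eval x.length) (p.eval x.length) (x ∈ L) := inNP_ok hL x
  refine h1.congr Iff.rfl fun w _ => ?_
  rw [unpair_pairBits]
  simp only
  rw [unpair_pairBits]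

theorem rpo_of_inRP {T : ℕ → Bool} {L : Set (List Bool)} (h : InRP L) : RPo (tal T) L := by
  obtain ⟨p, V, hV, hL⟩ := h
  have k0 : Poly (fun y : List Bool => unpair y) := poly_unpair
  have k1 : Poly (fun y : List Bool => (unpair y).1) := k0.fst
  have k2 : Poly (fun y : List Bool => (unpair y).2) := k0.snd
  refine rpo_iff.2 ⟨fun z => V (pairBits (unpair (unpair z).1).1 (unpair z).2), p, 0,
    polyTime_of_poly' ((poly_of_polyTime hV).comp (poly_pairBits (k1.comp k1) k2)), fun x => ?_⟩
  have h1 : Ok V x (p.eval x.length) 1 (x ∈ L) := hL x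
  refine h1.congr Iff.rfl fun w _ => ?_
  rw [unpair_pairBits]
  simp only
  rw [unpair_pairBits]

/-- If `RP = NP` then `RP = NP` relative to every tally oracle. -/
theorem rpeqnp_all (h : ∀ L, InNPw L ↔ InRP L) (T : ℕ → Bool) : RPeqNP (tal T) := by
  intro L
  refine ⟨fun hL => ?_, rpo_npo⟩
  obtain ⟨V, p, q, hV, hN⟩ := npo_iff.1 hL
  have k0 : Poly (fun y : List Bool => unpair y) := poly_unpair
  have k1 : Poly (fun y : List Bool => (unpair y).1) := k0.fst
  have k2 : Poly (fun y : List Bool => (unpair y).2) := k0.snd
  set N : Set (List Bool) :=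
    {y | ∃ w ∈ exL (p.eval (unpair y).1.length), V (pairBits y w) = [true]} with hNdef
  have h1 : InNPw N := by
    refine ⟨fun z => V (pairBits (unpair z).1 ((unpair z).2.take
      (p.eval (unpair (unpair z).1).1.length))), p, polyTime_of_poly' ((poly_of_polyTime hV).comp
        (poly_pairBits k1 (LD.poly_take k2 (UPoly.eval (UPoly.length (k1.comp k1)) p)))),
      fun y => ?_⟩
    have hle : p.eval (unpair y).1.length ≤ p.eval y.length :=
      Pool.Agent.NPC.eval_mono p (unpair_fst_len y)
    rw [hNdef, Set.mem_ofPred_eq]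
    simp only
    constructor
    · rintro ⟨w, hw, hV⟩
      have h2 := mem_exL.1 hw
      have h3 : (w ++ List.replicate (p.eval y.length - p.eval (unpair y).1.length) false).length =
          p.eval y.length := by simp [h2]; omega
      refine ⟨fun i => (w ++ List.replicate (p.eval y.length - p.eval (unpair y).1.length)
        false).get (i.cast h3.symm), ?_⟩
      have h4 : List.ofFn (fun i : Fin (p.eval y.length) => (w ++ List.replicate
          (p.eval y.length - p.eval (unpair y).1.length) false).get (i.cast h3.symm)) =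
          w ++ List.replicate (p.eval y.length - p.eval (unpair y).1.length) false := by
        refine List.ext_getElem (by simpa using h3.symm) fun i h5 h6 => ?_
        simp
      rw [h4]
      rw [unpair_pairBits]
      simp only
      rw [List.take_left' h2]
      exact hV
    · rintro ⟨w, hw⟩
      rw [unpair_pairBits] at hw
      exact ⟨_, mem_exL.2 (by simp [hle]), hw⟩
  obtain ⟨p', V', hV', hR⟩ := (h N).1 h1
  refine rpo_iff.2 ⟨V', p'.comp (2 * Polynomial.X + 1 + q), q, hV', fun x => ?_⟩
  have h2 : Ok V' (pairBits x (pre T (q.eval x.length)))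
      (p'.eval (pairBits x (pre T (q.eval x.length))).length) 1
      (pairBits x (pre T (q.eval x.length)) ∈ N) := hR _
  have h3 : (p'.comp (2 * Polynomial.X + 1 + q)).eval x.length =
      p'.eval (pairBits x (pre T (q.eval x.length))).length := by
    rw [LD.length_pairBits, pre_length]
    simp
  rw [h3]
  refine h2.congr ?_ fun w _ => Iff.rfl
  rw [(hN x).iff, hNdef, Set.mem_ofPred_eq, unpair_pairBits]

/-! ### Search with a table -/

/-- One step of the search for a witness of `x`. -/
def sst (W : List Bool → List Bool) (q : Polynomial ℕ) (x t u : List Bool) : List Bool :=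
  if W (pairBits (pairBits x (u ++ [true])) (t.take (q.eval (pairBits x (u ++ [true])).length))) =
    [true] then u ++ [true] else u ++ [false]

theorem sst_length (W : List Bool → List Bool) (q : Polynomial ℕ) (x t : List Bool) :
    ∀ n, ((sst W q x t)^[n] []).length = n
  | 0 => rfl
  | n + 1 => by
    rw [Function.iterate_succ_apply']
    have ih := sst_length W q x t n
    have h : ∀ u, (sst W q x t u).length = u.length + 1 := by
      intro u
      unfold sst
      split_ifs <;> simp
    rw [h, ih]

/-- The result of the search. -/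
def srch (W : List Bool → List Bool) (p q : Polynomial ℕ) (x t : List Bool) : List Bool :=
  (sst W q x t)^[p.eval x.length] []

theorem poly_srch {W : List Bool → List Bool} (hW : PolyTime W) (p q : Polynomial ℕ) :
    Poly (fun a : List Bool × List Bool => srch W p q a.1 a.2) := by
  have hk : UPoly (fun a : List Bool × List Bool => p.eval a.1.length) :=
    UPoly.eval (UPoly.length (NPC.Poly.fst NPC.Poly.id)) p
  obtain ⟨c, hc⟩ := NPC.Poly.sz_le hk
  have e1 : Poly (fun a : (List Bool × List Bool) × List Bool => a.1.1) :=
    NPC.Poly.fst (NPC.Poly.fst NPC.Poly.id)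
  have e2 : Poly (fun a : (List Bool × List Bool) × List Bool => a.1.2) :=
    NPC.Poly.snd (NPC.Poly.fst NPC.Poly.id)
  have e3 : Poly (fun a : (List Bool × List Bool) × List Bool => a.2) :=
    NPC.Poly.snd NPC.Poly.id
  have e4 : Poly (fun a : (List Bool × List Bool) × List Bool => pairBits a.1.1 (a.2 ++ [true])) :=
    poly_pairBits e1 (NPC.Poly.append e3 (NPC.Poly.const _))
  have hstep : Poly (fun a : (List Bool × List Bool) × List Bool => sst W q a.1.1 a.1.2 a.2) := by
    unfold sst
    exact NPC.Poly.ite (poly_test hW e4 (LD.poly_take e2 (UPoly.eval (UPoly.length e4) q)))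
      (NPC.Poly.append e3 (NPC.Poly.const _)) (NPC.Poly.append e3 (NPC.Poly.const _))
  refine (Poly.iterLen (l := fun a : List Bool × List Bool =>
      List.replicate (p.eval a.1.length) ())
    (s := fun _ => ([] : List Bool)) (F := fun a => sst W q a.1 a.2) hk (NPC.Poly.const _) hstep
    (4 * c + 20) ?_).congr fun a => ?_
  · intro a j hj
    have h1 := sst_length W q a.1 a.2 j
    have h2 : sz (List.replicate (p.eval a.1.length) ()) ≤ c.eval (sz a) := hc a
    have h3 := length_lt_sz (List.replicate (p.eval a.1.length) ())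
    have h4 := sz_listBool_le ((sst W q a.1 a.2)^[j] [])
    simp only [Polynomial.eval_add, Polynomial.eval_mul, Polynomial.eval_ofNat]
    omega
  · unfold srch
    rw [List.length_replicate]

/-- The prefixes of witnesses. -/
def Pre (V : List Bool → List Bool) (p : Polynomial ℕ) : Set (List Bool) :=
  {y | ∃ w : List Bool, w.length = p.eval (unpair y).1.length ∧ (unpair y).2 <+: w ∧
    V (pairBits (unpair y).1 w) = [true]}

theorem inNPw_pre {V : List Bool → List Bool} (hV : PolyTime V) (p : Polynomial ℕ) :
    InNPw (Pre V p) := by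
  have k0 : Poly (fun y : List Bool => unpair y) := poly_unpair
  have k1 : Poly (fun y : List Bool => (unpair y).1) := k0.fst
  have k2 : Poly (fun y : List Bool => (unpair y).2) := k0.snd
  have kx := k1.comp k1
  have ku := k2.comp k1
  have kw := LD.poly_take k2 (UPoly.eval (UPoly.length kx) p)
  refine ⟨fun z => [decide ((((unpair z).2.take (p.eval (unpair (unpair z).1).1.length))).take
      (unpair (unpair z).1).2.length = (unpair (unpair z).1).2) &&
      decide (V (pairBits (unpair (unpair z).1).1
        ((unpair z).2.take (p.eval (unpair (unpair z).1).1.length))) = [true])], p,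
    polyTime_of_poly' (NPC.Poly.cons (NPC.Poly.and
      (NPC.Poly.decide_eq (LD.poly_take kw (UPoly.length ku)) ku) (poly_test hV kx kw))
      (NPC.Poly.const [])), fun y => ?_⟩
  have hle : p.eval (unpair y).1.length ≤ p.eval y.length :=
    Pool.Agent.NPC.eval_mono p (unpair_fst_len y)
  have key : ∀ w : List Bool, ([decide ((((unpair (pairBits y w)).2.take
      (p.eval (unpair (unpair (pairBits y w)).1).1.length))).take
      (unpair (unpair (pairBits y w)).1).2.length = (unpair (unpair (pairBits y w)).1).2) &&
      decide (V (pairBits (unpair (unpair (pairBits y w)).1).1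
        ((unpair (pairBits y w)).2.take (p.eval (unpair (unpair (pairBits y w)).1).1.length))) =
          [true])] = [true]) ↔ (unpair y).2 <+: w.take (p.eval (unpair y).1.length) ∧
        V (pairBits (unpair y).1 (w.take (p.eval (unpair y).1.length))) = [true] := by
    intro w
    rw [unpair_pairBits]
    simp only [List.cons.injEq, and_true, Bool.and_eq_true, decide_eq_true_eq]
    rw [List.prefix_iff_eq_take]
    exact ⟨fun h => ⟨h.1.symm, h.2⟩, fun h => ⟨h.1.symm, h.2⟩⟩
  unfold Pre
  rw [Set.mem_ofPred_eq]
  simp only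
  constructor
  · rintro ⟨w, h2, hpre, hV⟩
    have h3 : (w ++ List.replicate (p.eval y.length - p.eval (unpair y).1.length) false).length =
        p.eval y.length := by simp [h2]; omega
    refine ⟨fun i => (w ++ List.replicate (p.eval y.length - p.eval (unpair y).1.length)
      false).get (i.cast h3.symm), ?_⟩
    have h4 : List.ofFn (fun i : Fin (p.eval y.length) => (w ++ List.replicate
        (p.eval y.length - p.eval (unpair y).1.length) false).get (i.cast h3.symm)) =
        w ++ List.replicate (p.eval y.length - p.eval (unpair y).1.length) false := by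
      refine List.ext_getElem (by simpa using h3.symm) fun i h5 h6 => ?_
      simp
    rw [h4, key, List.take_left' h2]
    exact ⟨hpre, hV⟩
  · rintro ⟨w, hw⟩
    rw [key] at hw
    exact ⟨_, by simp [hle], hw.1, hw.2⟩

/-- With a good table the search succeeds. -/
theorem srch_good {V W : List Bool → List Bool} {p q : Polynomial ℕ} {T : ℕ → Bool}
    (hT : PT T W q (Pre V p)) {x w0 : List Bool} (hw0 : w0.length = p.eval x.length)
    (hV : V (pairBits x w0) = [true]) {N : ℕ}
    (hN : q.eval (2 * x.length + 1 + p.eval x.length) ≤ N) :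
    V (pairBits x (srch W p q x (pre T N))) = [true] := by
  have key : ∀ j ≤ p.eval x.length, ∃ w : List Bool, w.length = p.eval x.length ∧
      (sst W q x (pre T N))^[j] [] <+: w ∧ V (pairBits x w) = [true] := by
    intro j
    induction j with
    | zero => exact fun _ => ⟨w0, hw0, List.nil_prefix, hV⟩
    | succ j ih =>
      intro hj
      obtain ⟨w, h1, h2, h3⟩ := ih (by omega)
      rw [Function.iterate_succ_apply']
      set u := (sst W q x (pre T N))^[j] [] with hu
      have hul : u.length = j := sst_length _ _ _ _ _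
      have h4 : (pre T N).take (q.eval (pairBits x (u ++ [true])).length) =
          pre T (q.eval (pairBits x (u ++ [true])).length) := by
        refine pre_take T (le_trans (Pool.Agent.NPC.eval_mono q ?_) hN)
        rw [LD.length_pairBits]
        simp
        omega
      have h5 := hT (pairBits x (u ++ [true]))
      unfold sst
      rw [h4]
      split_ifs with h6
      · obtain ⟨w', h7, h8, h9⟩ := h5.2 h6
        rw [unpair_pairBits] at h7 h8 h9
        exact ⟨w', h7, h8, h9⟩
      · refine ⟨w, h1, ?_, h3⟩
        obtain ⟨l, hl⟩ := h2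
        cases l with
        | nil =>
          exfalso
          rw [List.append_nil] at hl
          rw [hl] at hul
          omega
        | cons b l =>
          cases b with
          | true =>
            exfalso
            refine h6 (h5.1 ⟨w, ?_, ?_, ?_⟩)
            · rw [unpair_pairBits]
              exact h1
            · rw [unpair_pairBits]
              exact ⟨l, by rw [← hl]; simp⟩
            · rw [unpair_pairBits]
              exact h3
          | false => exact ⟨l, by rw [← hl]; simp⟩
  obtain ⟨w, h1, h2, h3⟩ := key _ le_rfl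
  have h4 : srch W p q x (pre T N) = w := by
    refine h2.eq_of_length ?_
    rw [sst_length, h1]
  rw [h4]
  exact h3

/-- A good table for a nonnull set of oracles gives a randomized algorithm. -/
theorem inRP_of_nonnull {V W : List Bool → List Bool} {p q : Polynomial ℕ} (hV : PolyTime V)
    (hW : PolyTime W) {L : Set (List Bool)}
    (hL : ∀ x, x ∈ L ↔ ∃ w : Fin (p.eval x.length) → Bool, V (pairBits x (List.ofFn w)) = [true])
    (hpos : fair {T | PT T W q (Pre V p)} ≠ 0) : InRP L := by
  set Q : Polynomial ℕ := q.comp (2 * Polynomial.X + 1 + p) with hQ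
  have hQe : ∀ n : ℕ, Q.eval n = q.eval (2 * n + 1 + p.eval n) := fun n => by simp [hQ]
  have k0 : Poly (fun y : List Bool => unpair y) := poly_unpair
  have k1 : Poly (fun y : List Bool => (unpair y).1) := k0.fst
  have k2 : Poly (fun y : List Bool => (unpair y).2) := k0.snd
  set A : List Bool → List Bool := fun z => [decide (V (pairBits (unpair z).1
    (srch W p q (unpair z).1 (unpair z).2)) = [true])] with hA
  have hAp : PolyTime A := polyTime_of_poly' (NPC.Poly.cons (poly_test hV k1
    ((poly_srch hW p q).comp k0)) (NPC.Poly.const []))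
  have hAe : ∀ x t : List Bool, A (pairBits x t) = [true] ↔
      V (pairBits x (srch W p q x t)) = [true] := by
    intro x t
    rw [hA]
    simp only
    rw [unpair_pairBits]
    simp
  obtain ⟨K, hK⟩ := ENNReal.exists_nat_mul_gt hpos (b := 1) ENNReal.one_ne_top
  have hK0 : 0 < K := by
    rcases Nat.eq_zero_or_pos K with h | h
    · rw [h] at hK
      simp at hK
    · exact h
  have h1 : ∀ x ∈ L, 2 ^ Q.eval x.length ≤ K * acc A x (Q.eval x.length) := by
    intro x hx
    obtain ⟨w, hw⟩ := (hL x).1 hx
    have h2 : fair {T | PT T W q (Pre V p)} ≤ (acc A x (Q.eval x.length) : ℝ≥0∞) *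
        (2⁻¹ : ℝ≥0∞) ^ Q.eval x.length := by
      rw [acc_cnt]
      refine le_trans (measure_mono fun T hT => ?_) (fair_le _ _)
      rw [Set.mem_ofPred_eq, hAe]
      exact srch_good hT (w0 := List.ofFn w) (by simp) hw (hQe _).ge
    have h3 : (1 : ℝ≥0∞) ≤ K * ((acc A x (Q.eval x.length) : ℝ≥0∞) *
        (2⁻¹ : ℝ≥0∞) ^ Q.eval x.length) := hK.le.trans (by gcongr)
    have h4 : (2 : ℝ≥0∞) ^ Q.eval x.length ≤ K * (acc A x (Q.eval x.length) : ℝ≥0∞) := by
      calc (2 : ℝ≥0∞) ^ Q.eval x.length = 2 ^ Q.eval x.length * 1 := by rw [mul_one]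
        _ ≤ 2 ^ Q.eval x.length * (K * ((acc A x (Q.eval x.length) : ℝ≥0∞) *
            (2⁻¹ : ℝ≥0∞) ^ Q.eval x.length)) := by gcongr
        _ = (K * (acc A x (Q.eval x.length) : ℝ≥0∞)) *
            (2 ^ Q.eval x.length * (2⁻¹ : ℝ≥0∞) ^ Q.eval x.length) := by ring
        _ = _ := by
          rw [← mul_pow, ENNReal.mul_inv_cancel (by norm_num) (by norm_num), one_pow, mul_one]
    exact_mod_cast h4
  have h2 : ∀ x, x ∉ L → acc A x (Q.eval x.length) = 0 := by
    intro x hx
    rw [acc_cnt, cnt_zero]
    intro t _ ht
    rw [hAe] at ht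
    refine hx ((hL x).2 ?_)
    have hlen : (srch W p q x t).length = p.eval x.length := sst_length _ _ _ _ _
    refine ⟨fun i => (srch W p q x t).get (i.cast hlen.symm), ?_⟩
    have h4 : List.ofFn (fun i : Fin (p.eval x.length) =>
        (srch W p q x t).get (i.cast hlen.symm)) = srch W p q x t := by
      refine List.ext_getElem (by simpa using hlen.symm) fun i h5 h6 => ?_
      simp
    rw [h4]
    exact ht
  have hQu : UPoly (fun y : List Bool => Q.eval (unpair y).1.length) :=
    UPoly.eval (UPoly.length k1) Q
  refine ⟨Polynomial.C K * Q, fun y => [trials A (unpair y).1 0 (Q.eval (unpair y).1.length) K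
    (unpair y).2], polyTime_of_poly' (NPC.Poly.cons (poly_trials hAp k1 (UPoly.const 0) hQu
      (UPoly.const K) k2) (NPC.Poly.const [])), fun x => ?_⟩
  simp only [Polynomial.eval_mul, Polynomial.eval_C]
  have h3 : acc (fun y => [trials A (unpair y).1 0 (Q.eval (unpair y).1.length) K (unpair y).2])
      x (K * Q.eval x.length) =
      cnt (K * Q.eval x.length) (fun v => trials A x 0 (Q.eval x.length) K v = true) := by
    rw [acc_cnt]
    refine cnt_congr fun w _ => ?_
    rw [unpair_pairBits]
    simp
  rw [h3]
  refine ⟨fun hx => ?_, fun hx => ?_⟩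
  · have h4 : cnt (K * Q.eval x.length) (fun v => trials A x 0 (Q.eval x.length) K v = true) +
        cnt (K * Q.eval x.length) (fun v => trials A x 0 (Q.eval x.length) K v ≠ true) =
        2 ^ (K * Q.eval x.length) := cnt_compl _ _
    have h5 : cnt (Q.eval x.length) (fun w => A (pairBits x w) ≠ [true]) +
        cnt (Q.eval x.length) (fun w => A (pairBits x w) = [true]) = 2 ^ Q.eval x.length := by
      rw [add_comm]
      exact cnt_compl _ _
    have h6 := h1 x hx
    rw [acc_cnt] at h6
    have h7 := two_mul_pow_le h5 h6 hK0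
    rw [← cnt_trials, ← pow_mul, mul_comm (Q.eval x.length) K] at h7
    rw [pow_one]
    omega
  · rw [cnt_zero]
    intro v _ hv
    exact trials_sound (h2 x hx) hv

/-- If `RP ≠ NP` then `RP ≠ NP` relative to almost every tally oracle. -/
theorem ae_rp_ne_np {L : Set (List Bool)} (hL : InNPw L) (hR : ¬ InRP L) :
    ∀ᵐ T ∂fair, ¬ RPeqNP (tal T) := by
  obtain ⟨V, p, hV, hVL⟩ := hL
  have h0 := countable_index
  have h1 : ∀ i : {V : List Bool → List Bool | PolyTime V} × Polynomial ℕ × Polynomial ℕ,
      ∀ᵐ T ∂fair, ¬ PT T i.1.1 i.2.1 (Pre V p) := by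
    intro i
    by_contra hcon
    refine hR (inRP_of_nonnull (W := i.1.1) (q := i.2.1) hV i.1.2 hVL fun h2 => hcon ?_)
    rw [ae_iff]
    simpa using h2
  rw [← ae_all_iff] at h1
  filter_upwards [h1, ae_peqRP] with T h2 h3 h4
  obtain ⟨W, q, hW, hPT⟩ := isP_iff.1 ((h3 _).1 ((h4 _).1 (npo_of (inNPw_pre hV p))))
  exact h2 (⟨W, hW⟩, q, 0) hPT

/-- If `RP ≠ NP` then `RP ≠ NP` relative to generic tally oracles. -/
theorem generic_rp_ne_np {L : Set (List Bool)} (hL : InNPw L) (hR : ¬ InRP L) :
    ∀ᶠ T in residual (ℕ → Bool), ¬ RPeqNP (tal T) := by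
  filter_upwards [generic_notRP hR] with T h1 h2
  exact h1 ((h2 L).1 (npo_of hL))

end Pool.Agent.L0h33.TL
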