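import Pool.Agent.L0h33.TL.Defs
import Pool.Agent.L0h33.LD.Guess
import Pool.Agent.H620R2.Gauge.A1
import Pool.Agent.H620R2.GaugeR.Seq

/-!
# Normal forms of the classes relative to a tally oracle
-/

set_option autoImplicit false

namespace Pool.Agent.L0h33.TL

open Function Pool.Agent.NPC Pool.Agent.L0h33.LD Pool.Agent.H660R2.NX
open Pool.Agent.H620R2.Gauge (Oracle IsFP IsP Alg)

attribute [local irreducible] unpair

/-- The first `n` bits of `T`. -/
def pre (T : ℕ → Bool) (n : ℕ) : List Bool := (List.range n).map T

@[simp] theorem pre_length (T : ℕ → Bool) (n : ℕ) : (pre T n).length = n := by simp [pre]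

theorem pre_getD (T : ℕ → Bool) {n i : ℕ} (h : i < n) : (pre T n).getD i false = T i := by
  rw [List.getD_eq_getElem _ _ (by simpa using h)]
  simp [pre]

theorem pre_take (T : ℕ → Bool) {m n : ℕ} (h : m ≤ n) : (pre T n).take m = pre T m := by
  unfold pre
  rw [← List.map_take, List.take_range, min_eq_left h]

theorem pre_congr {T T' : ℕ → Bool} {n : ℕ} (h : ∀ i < n, T i = T' i) : pre T n = pre T' n := by
  unfold pre
  refine List.map_congr_left fun i hi => h i (List.mem_range.1 hi)

theorem pre_inj {T T' : ℕ → Bool} {n : ℕ} (h : pre T n = pre T' n) : ∀ i < n, T i = T' i := by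
  intro i hi
  rw [← pre_getD T hi, ← pre_getD T' hi, h]

/-- The oracle given by a table. -/
def tabO (t : List Bool) : Oracle := fun q =>
  decide (q = List.replicate q.length true) && t.getD q.length false

theorem tabO_pre (T : ℕ → Bool) {n : ℕ} {q : List Bool} (h : q.length < n) :
    tabO (pre T n) q = tal T q := by
  unfold tabO tal
  rw [pre_getD T h]

/-- One round with the oracle given by a table. -/
def stq (D : List Bool → List Bool) (x t a : List Bool) : List Bool :=
  if (D (pairBits x a)).head? = some false then a ++ [tabO t (D (pairBits x a)).tail] else a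

theorem run_eq (M : Alg) (t : List Bool) (x : List Bool) : ∀ (n : ℕ) (a z : List Bool),
    M.run (tabO t) x n a = some z → z = (M.D (pairBits x ((stq M.D x t)^[n] a))).tail
  | 0, a, z, h => by simp [Alg.run] at h
  | n + 1, a, z, h => by
    rw [Function.iterate_succ_apply]
    unfold Alg.run at h
    rcases hD : M.D (pairBits x a) with _ | ⟨b, q⟩
    · rw [hD] at h
      have hs : stq M.D x t a = a := by
        unfold stq
        rw [hD]
        simp
      rw [hs, Function.iterate_fixed hs, hD]
      simpa using h.symm
    · rw [hD] at h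
      cases b with
      | true =>
        have hs : stq M.D x t a = a := by
          unfold stq
          rw [hD]
          simp
        rw [hs, Function.iterate_fixed hs, hD]
        simpa using h.symm
      | false =>
        have hs : stq M.D x t a = a ++ [tabO t q] := by
          unfold stq
          rw [hD]
          simp
        rw [hs]
        simp only at h
        exact run_eq M t x n _ _ h

theorem length_stq (D : List Bool → List Bool) (x t : List Bool) :
    ∀ n, ((stq D x t)^[n] []).length ≤ n
  | 0 => by simp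
  | n + 1 => by
    rw [Function.iterate_succ_apply']
    have ih := length_stq D x t n
    have h : ∀ a, (stq D x t a).length ≤ a.length + 1 := by
      intro a
      unfold stq
      split_ifs <;> simp
    exact (h _).trans (by omega)

theorem poly_tabO {α : Type} [TEnc α] {t q : α → List Bool} (ht : Poly t) (hq : Poly q) :
    Poly (fun a => tabO (t a) (q a)) := by
  unfold tabO
  have h1 : Poly (fun a => (q a).map (fun _ => true)) :=
    NPC.Poly.map (F := fun _ _ => true) hq (NPC.Poly.const true)
  have h2 : Poly (fun a => decide (q a = (q a).map (fun _ => true))) := NPC.Poly.decide_eq hq h1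
  have h3 : Poly (fun a => (t a).getD (q a).length false) :=
    NPC.Poly.getD ht (NPC.Poly.length hq) (NPC.Poly.const false)
  refine (NPC.Poly.and h2 h3).congr fun a => ?_
  simp only [List.map_const']

/-- The computation of an algorithm with a tally oracle, from a table. -/
theorem sim (M : Alg) : ∃ (g : List Bool × List Bool → List Bool) (q : Polynomial ℕ), Poly g ∧
    ∀ (T : ℕ → Bool) (x z : List Bool), M.out (tal T) x = some z →
      z = g (x, pre T (q.eval x.length)) := by
  obtain ⟨qb, hqb⟩ := M.out_local
  have hD : Poly M.D := poly_of_polyTime M.poly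
  set g : List Bool × List Bool → List Bool := fun p =>
    (M.D (pairBits p.1 ((stq M.D p.1 p.2)^[M.p.eval p.1.length] []))).tail with hg
  have hx : Poly (fun p : (List Bool × List Bool) × List Bool => M.D (pairBits p.1.1 p.2)) :=
    hD.comp (poly_pairBits (NPC.Poly.fst (NPC.Poly.fst NPC.Poly.id))
      (NPC.Poly.snd NPC.Poly.id))
  have hstep : Poly (fun p : (List Bool × List Bool) × List Bool => stq M.D p.1.1 p.1.2 p.2) := by
    unfold stq
    refine NPC.Poly.ite (NPC.Poly.decide_eq (NPC.Poly.head? hx) (NPC.Poly.const _))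
      (NPC.Poly.append (NPC.Poly.snd NPC.Poly.id) ?_) (NPC.Poly.snd NPC.Poly.id)
    exact NPC.Poly.cons (poly_tabO (NPC.Poly.snd (NPC.Poly.fst NPC.Poly.id))
      (NPC.Poly.tail hx)) (NPC.Poly.const _)
  have hk : UPoly (fun p : List Bool × List Bool => M.p.eval p.1.length) :=
    UPoly.eval (UPoly.length (NPC.Poly.fst NPC.Poly.id)) M.p
  obtain ⟨q, hq⟩ := NPC.Poly.sz_le hk
  have hmain : Poly (fun p : List Bool × List Bool =>
      (stq M.D p.1 p.2)^[(List.replicate (M.p.eval p.1.length) ()).length] []) := by
    refine Poly.iterLen (l := fun p : List Bool × List Bool =>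
        List.replicate (M.p.eval p.1.length) ())
      (s := fun _ => ([] : List Bool)) (F := fun p => stq M.D p.1 p.2) hk (NPC.Poly.const _) hstep
      (4 * q + 20) ?_
    intro p j hj
    have h1 := length_stq M.D p.1 p.2 j
    have h2 : sz (List.replicate (M.p.eval p.1.length) ()) ≤ q.eval (sz p) := hq p
    have h3 := length_lt_sz (List.replicate (M.p.eval p.1.length) ())
    have h4 := sz_listBool_le ((stq M.D p.1 p.2)^[j] [])
    simp only [Polynomial.eval_add, Polynomial.eval_mul, Polynomial.eval_ofNat]
    omega
  refine ⟨g, qb + 1, ?_, fun T x z h => ?_⟩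
  · refine (NPC.Poly.tail (hD.comp (poly_pairBits (NPC.Poly.fst NPC.Poly.id) hmain))).congr
      fun p => ?_
    rw [List.length_replicate]
  · obtain ⟨Q, _, hQ, hloc⟩ := hqb (tal T) x
    have h1 : M.out (tabO (pre T ((qb + 1).eval x.length))) x = some z := by
      rw [← h]
      refine hloc _ fun q' hq' => tabO_pre T ?_
      have := hQ q' hq'
      rw [Polynomial.eval_add, Polynomial.eval_one]
      omega
    exact run_eq M _ x _ _ _ h1

theorem sim_of {T : ℕ → Bool} {F : List Bool → List Bool} (h : IsFP (tal T) F) :
    ∃ (g : List Bool × List Bool → List Bool) (q : Polynomial ℕ), Poly g ∧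
      ∀ x, F x = g (x, pre T (q.eval x.length)) := by
  obtain ⟨M, hM⟩ := h
  obtain ⟨g, q, hg, hs⟩ := sim M
  exact ⟨g, q, hg, fun x => hs T x _ (hM x)⟩

/-- A table of the oracle can be computed. -/
theorem of_sim {T : ℕ → Bool} {g : List Bool × List Bool → List Bool} (hg : Poly g)
    (q : Polynomial ℕ) : IsFP (tal T) (fun x => g (x, pre T (q.eval x.length))) := by
  have hQ : Poly (fun x : List Bool => (List.range (q.eval x.length)).map
      (fun i => List.replicate i true)) := by
    have h1 : UPoly (fun x : List Bool => q.eval x.length) :=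
      UPoly.eval (UPoly.length NPC.Poly.id) q
    have h2 : Poly (fun x : List Bool => List.range (q.eval x.length)) := h1.range
    have h3 : Poly (fun p : List Bool × ℕ =>
        ((List.range (q.eval p.1.length)).filter (fun i => decide (i < p.2))).map
          (fun _ => true)) :=
      NPC.Poly.map (F := fun _ _ => true)
        (NPC.Poly.filter (p := fun (a : List Bool × ℕ) (i : ℕ) => decide (i < a.2))
          (h2.comp (NPC.Poly.fst NPC.Poly.id))
          (NPC.Poly.decide_lt (NPC.Poly.snd NPC.Poly.id)
            (NPC.Poly.snd (NPC.Poly.fst NPC.Poly.id))))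
        (NPC.Poly.const true)
    refine (NPC.Poly.map (F := fun (x : List Bool) (i : ℕ) =>
      ((List.range (q.eval x.length)).filter (fun j => decide (j < i))).map (fun _ => true))
      h2 h3).congr fun x => ?_
    refine List.map_congr_left fun i hi => ?_
    have hi' := List.mem_range.1 hi
    rw [List.map_const']
    congr 1
    rw [← List.countP_eq_length_filter]
    have h4 : (List.range (q.eval x.length)).countP (fun a => decide (a < i)) =
        Nat.count (fun a => a < i) (q.eval x.length) := rfl
    rw [h4, Nat.count_eq_card_filter_range]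
    have h5 : (Finset.range (q.eval x.length)).filter (fun a => a < i) = Finset.range i := by
      ext a
      simp only [Finset.mem_filter, Finset.mem_range]
      omega
    rw [h5, Finset.card_range]
  have h := Pool.Agent.H620R2.Gauge.IsFP.tt (A := tal T) (Q := fun x : List Bool =>
    (List.range (q.eval x.length)).map (fun i => List.replicate i true)) (H := g) hQ hg
  have e : ∀ x : List Bool, ((List.range (q.eval x.length)).map
      (fun i => List.replicate i true)).map (tal T) = pre T (q.eval x.length) := by
    intro x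
    unfold pre
    rw [List.map_map]
    refine List.map_congr_left fun i _ => ?_
    simp [tal]
  simpa only [e] using h

/-! ### Normal forms -/

/-- `L` is decided by `W` and a table of the oracle. -/
def PT (T : ℕ → Bool) (W : List Bool → List Bool) (q : Polynomial ℕ) (L : Set (List Bool)) :
    Prop := ∀ x, x ∈ L ↔ W (pairBits x (pre T (q.eval x.length))) = [true]

/-- `L` is decided with one-sided error by `V` and a table of the oracle. -/
def RT (T : ℕ → Bool) (V : List Bool → List Bool) (p q : Polynomial ℕ) (L : Set (List Bool)) :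
    Prop := ∀ x, Ok V (pairBits x (pre T (q.eval x.length))) (p.eval x.length) 1 (x ∈ L)

/-- `L` is accepted nondeterministically by `V` and a table of the oracle. -/
def NT (T : ℕ → Bool) (V : List Bool → List Bool) (p q : Polynomial ℕ) (L : Set (List Bool)) :
    Prop := ∀ x, Ok V (pairBits x (pre T (q.eval x.length))) (p.eval x.length) (p.eval x.length)
      (x ∈ L)

theorem isP_iff {T : ℕ → Bool} {L : Set (List Bool)} : IsP (tal T) L ↔
    ∃ (W : List Bool → List Bool) (q : Polynomial ℕ), PolyTime W ∧ PT T W q L := by
  constructor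
  · rintro ⟨V, hV, hVL⟩
    obtain ⟨g, q, hg, hs⟩ := sim_of hV
    refine ⟨fun y => g (unpair y), q, polyTime_of_poly' (hg.comp poly_unpair), fun x => ?_⟩
    simp only
    rw [unpair_pairBits, hVL, hs]
  · rintro ⟨W, q, hW, hWL⟩
    refine ⟨_, of_sim (T := T) (g := fun p => W (pairBits p.1 p.2)) ?_ q, hWL⟩
    exact (poly_of_polyTime hW).comp (poly_pairBits (NPC.Poly.fst NPC.Poly.id)
      (NPC.Poly.snd NPC.Poly.id))

/-- A verifier with a tally oracle, as a verifier with a table. -/
theorem ver_to {T : ℕ → Bool} {V : List Bool → List Bool} (p : Polynomial ℕ)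
    (hV : IsFP (tal T) V) : ∃ (V' : List Bool → List Bool) (q : Polynomial ℕ), PolyTime V' ∧
      ∀ x w : List Bool, w.length = p.eval x.length →
        V (pairBits x w) = V' (pairBits (pairBits x (pre T (q.eval x.length))) w) := by
  obtain ⟨g, q, hg, hs⟩ := sim_of hV
  have h0 : Poly (fun y : List Bool => unpair y) := poly_unpair
  have h1 : Poly (fun y : List Bool => (unpair y).1) := h0.fst
  have h2 : Poly (fun y : List Bool => (unpair y).2) := h0.snd
  refine ⟨fun y => g (pairBits (unpair (unpair y).1).1 (unpair y).2, (unpair (unpair y).1).2),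
    q.comp (2 * Polynomial.X + 1 + p), polyTime_of_poly' (hg.comp (NPC.Poly.pair
      (poly_pairBits (h1.comp h1) h2) (h2.comp h1))), fun x w hw => ?_⟩
  simp only
  rw [unpair_pairBits]
  simp only
  rw [unpair_pairBits, hs, LD.length_pairBits, hw]
  simp

theorem ver_of {T : ℕ → Bool} {V : List Bool → List Bool} (q : Polynomial ℕ)
    (hV : PolyTime V) : ∃ V' : List Bool → List Bool, IsFP (tal T) V' ∧
      ∀ x w : List Bool,
        V' (pairBits x w) = V (pairBits (pairBits x (pre T (q.eval x.length))) w) := by
  have h0 : Poly (fun y : List Bool => unpair y) := poly_unpair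
  have h1 : Poly (fun y : List Bool => (unpair y).1) := h0.fst
  have h2 : Poly (fun y : List Bool => (unpair y).2) := h0.snd
  have hu : UPoly (fun p : List Bool × List Bool => q.eval (unpair p.1).1.length) :=
    UPoly.eval (UPoly.length (h1.comp (NPC.Poly.fst NPC.Poly.id))) q
  have hg : Poly (fun p : List Bool × List Bool =>
      V (pairBits (pairBits (unpair p.1).1 (p.2.take (q.eval (unpair p.1).1.length)))
        (unpair p.1).2)) :=
    (poly_of_polyTime hV).comp (poly_pairBits (poly_pairBits (h1.comp (NPC.Poly.fst NPC.Poly.id))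
      (LD.poly_take (NPC.Poly.snd NPC.Poly.id) hu)) (h2.comp (NPC.Poly.fst NPC.Poly.id)))
  refine ⟨_, of_sim (T := T) hg q, fun x w => ?_⟩
  simp only
  rw [unpair_pairBits]
  simp only
  rw [pre_take]
  refine Pool.Agent.NPC.eval_mono q ?_
  rw [LD.length_pairBits]
  omega

theorem rpo_iff {T : ℕ → Bool} {L : Set (List Bool)} : RPo (tal T) L ↔
    ∃ (V : List Bool → List Bool) (p q : Polynomial ℕ), PolyTime V ∧ RT T V p q L := by
  constructor
  · rintro ⟨V, p, hV, hok⟩
    obtain ⟨V', q, hV', hs⟩ := ver_to p hV
    refine ⟨V', p, q, hV', fun x => ?_⟩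
    have h1 : Ok V x (p.eval x.length) 1 (x ∈ L) := by
      obtain ⟨h2, h3⟩ := hok x
      exact ⟨fun h => by simpa using h2 h, h3⟩
    exact h1.congr Iff.rfl fun w hw => by rw [hs x w hw]
  · rintro ⟨V, p, q, hV, hok⟩
    obtain ⟨V', hV', hs⟩ := ver_of (T := T) q hV
    refine ⟨V', p, hV', fun x => ?_⟩
    have h1 : Ok V' x (p.eval x.length) 1 (x ∈ L) :=
      (hok x).congr Iff.rfl fun w _ => by rw [hs x w]
    exact ⟨fun h => by simpa using h1.1 h, h1.2⟩

theorem npo_iff {T : ℕ → Bool} {L : Set (List Bool)} : NPo (tal T) L ↔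
    ∃ (V : List Bool → List Bool) (p q : Polynomial ℕ), PolyTime V ∧ NT T V p q L := by
  constructor
  · rintro ⟨V, p, hV, hok⟩
    obtain ⟨V', q, hV', hs⟩ := ver_to p hV
    refine ⟨V', p, q, hV', fun x => ?_⟩
    have h1 : Ok V x (p.eval x.length) (p.eval x.length) (x ∈ L) := inNP_ok hok x
    exact h1.congr Iff.rfl fun w hw => by rw [hs x w hw]
  · rintro ⟨V, p, q, hV, hok⟩
    obtain ⟨V', hV', hs⟩ := ver_of (T := T) q hV
    refine ⟨V', p, hV', fun x => ?_⟩
    have h1 : Ok V' x (p.eval x.length) (p.eval x.length) (x ∈ L) :=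
      (hok x).congr Iff.rfl fun w _ => by rw [hs x w]
    rw [h1.iff]
    constructor
    · rintro ⟨w, hw, hV⟩
      have h2 := mem_exL.1 hw
      rw [← h2]
      exact ⟨w.get, by rwa [List.ofFn_get]⟩
    · rintro ⟨w, hw⟩
      exact ⟨_, mem_exL.2 (by simp), hw⟩

/-- `P` is contained in `RP`, and `RP` in `NP`. -/
theorem isP_rpo {T : ℕ → Bool} {L : Set (List Bool)} (h : IsP (tal T) L) : RPo (tal T) L := by
  obtain ⟨W, q, hW, hL⟩ := isP_iff.1 h
  have h0 : Poly (fun y : List Bool => unpair y) := poly_unpair
  refine rpo_iff.2 ⟨fun y => W (unpair y).1, 0, q,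
    polyTime_of_poly' ((poly_of_polyTime hW).comp h0.fst), fun x => ?_⟩
  refine Ok.const fun w => ?_
  rw [unpair_pairBits]
  exact (hL x).symm

theorem rpo_npo {T : ℕ → Bool} {L : Set (List Bool)} (h : RPo (tal T) L) : NPo (tal T) L := by
  obtain ⟨V, p, q, hV, hL⟩ := rpo_iff.1 h
  refine npo_iff.2 ⟨V, p, q, hV, fun x => ?_⟩
  exact Pool.Agent.L0h33.LD.ok_iff.2 (hL x).iff

end Pool.Agent.L0h33.TL
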